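import Pool.Agent.TH339.MP.X6

/-!
# A primitive of the logarithm of an Euler product, continuous up to the edge
-/

set_option autoImplicit false

namespace Pool.Agent.E8helper17.MC

open Complex Set Filter Topology MeasureTheory
open Pool.Agent.TH339.MP
open Pool.Agent.W350.Edge (ps divSet dimH_divSet lg lg_le lt_lg)

variable {b : PP → ℂ} {M : ℝ}

/-- coefficients of the primitive -/
noncomputable def pb (b : PP → ℂ) (x : PP) : ℂ := -(b x) / ((Real.log (qq x) : ℝ) : ℂ)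

lemma log_qq_pos (x : PP) : 0 < Real.log (qq x) :=
  Real.log_pos (by exact_mod_cast (by have := two_le_qq x; omega : 1 < qq x))

lemma log2_le (x : PP) : Real.log 2 ≤ Real.log (qq x) :=
  Real.log_le_log (by norm_num) (by exact_mod_cast two_le_qq x)

lemma norm_pb (b : PP → ℂ) (x : PP) : ‖pb b x‖ = ‖b x‖ / Real.log (qq x) := by
  unfold pb
  rw [norm_div, norm_neg, Complex.norm_real, Real.norm_of_nonneg (log_qq_pos x).le]

lemma norm_pb_le (hb : ∀ x, ‖b x‖ ≤ M / (x.2 + 1 : ℕ)) (x : PP) :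
    ‖pb b x‖ ≤ (M / Real.log 2) / (x.2 + 1 : ℕ) := by
  rw [norm_pb, div_right_comm]
  have h2 : 0 < Real.log 2 := Real.log_pos (by norm_num)
  have hM : 0 ≤ M / (x.2 + 1 : ℕ) := div_nonneg (M_nonneg hb) (by positivity)
  exact div_le_div₀ hM (hb x) h2 (log2_le x)

lemma sum_ce_log (T : Finset PP) : ∑ x ∈ T, ce x / Real.log (qq x) ≤ 31 := by
  classical
  rw [← Finset.sum_filter_add_sum_filter_not T (fun x => 1 ≤ lg (qq x))]
  have h1 : ∑ x ∈ T.filter (fun x => 1 ≤ lg (qq x)), ce x / Real.log (qq x) ≤ 30 := by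
    set T1 := T.filter (fun x => 1 ≤ lg (qq x)) with hT1
    set R : Finset ℕ := T1.image fun x => lg (qq x) with hR
    have hR1 : ∀ l ∈ R, 1 ≤ l := by
      intro l hl
      rw [hR, Finset.mem_image] at hl
      obtain ⟨x, hx, rfl⟩ := hl
      exact (Finset.mem_filter.1 hx).2
    have h2 : ∑ x ∈ T1, ce x / Real.log (qq x) ≤
        ∑ x ∈ T1, ce x * (fun l : ℕ => 1 / (l : ℝ)) (lg (qq x)) := by
      refine Finset.sum_le_sum fun x hx => ?_
      have hx1 : 1 ≤ lg (qq x) := (Finset.mem_filter.1 hx).2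
      have hl : (0 : ℝ) < lg (qq x) := by exact_mod_cast hx1
      have hle : (lg (qq x) : ℝ) ≤ Real.log (qq x) := lg_le (by have := two_le_qq x; omega)
      rw [div_eq_mul_one_div]
      exact mul_le_mul_of_nonneg_left (one_div_le_one_div_of_le hl hle) (ce_nonneg x)
    refine h2.trans ((blk_sum T1 R hR1 (fun x hx => Finset.mem_image_of_mem _ hx)
      (fun l : ℕ => 1 / (l : ℝ)) (fun l => by positivity)).trans ?_)
    have h3 : ∑ l ∈ R, 15 / (l : ℝ) * (1 / (l : ℝ)) = 15 * ∑ l ∈ R, 1 / (l : ℝ) ^ 2 := by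
      rw [Finset.mul_sum]
      refine Finset.sum_congr rfl fun l _ => ?_
      ring
    have h4 := inv_sq_sum (m0 := 1) le_rfl R hR1
    rw [h3]
    norm_num at h4 ⊢
    linarith
  have h5 : ∑ x ∈ T.filter (fun x => ¬ 1 ≤ lg (qq x)), ce x / Real.log (qq x) ≤ 1 := by
    have hq : ∀ x ∈ T.filter (fun x => ¬ 1 ≤ lg (qq x)), qq x = 2 := by
      intro x hx
      have hx1 : ¬ 1 ≤ lg (qq x) := (Finset.mem_filter.1 hx).2
      have hx2 : lg (qq x) = 0 := by omega
      have h6 := lt_lg (qq x)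
      rw [hx2] at h6
      norm_num at h6
      by_contra hne
      have h7 : 3 ≤ qq x := by have := two_le_qq x; omega
      have h8 : (1 : ℝ) < Real.log 3 := by
        rw [Real.lt_log_iff_exp_lt (by norm_num)]
        exact Real.exp_one_lt_three
      have h9 : Real.log 3 ≤ Real.log (qq x) :=
        Real.log_le_log (by norm_num) (by exact_mod_cast h7)
      linarith
    have hcard : (T.filter (fun x => ¬ 1 ≤ lg (qq x))).card ≤ 1 := by
      rw [Finset.card_le_one]
      intro x hx y hy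
      exact qq_injective ((hq x hx).trans (hq y hy).symm)
    have hterm : ∀ x ∈ T.filter (fun x => ¬ 1 ≤ lg (qq x)), ce x / Real.log (qq x) ≤ 1 := by
      intro x hx
      have h6 := hq x hx
      have h7 : ce x ≤ 1 / 2 := by
        unfold ce
        rw [h6]
        have : (1 : ℝ) ≤ (x.2 + 1 : ℕ) := by exact_mod_cast (by omega : 1 ≤ x.2 + 1)
        rw [div_le_div_iff₀ (by positivity) (by norm_num)]
        push_cast at this ⊢
        linarith
      have h8 : (0.69 : ℝ) < Real.log (qq x) := by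
        rw [h6]
        have := Real.log_two_gt_d9
        push_cast
        linarith
      rw [div_le_one (log_qq_pos x)]
      linarith
    calc _ ≤ ∑ _x ∈ T.filter (fun x => ¬ 1 ≤ lg (qq x)), (1 : ℝ) := Finset.sum_le_sum hterm
      _ = (T.filter (fun x => ¬ 1 ≤ lg (qq x))).card := by simp
      _ ≤ 1 := by exact_mod_cast hcard
  linarith

lemma summable_ce_log : Summable fun x : PP => ce x / Real.log (qq x) :=
  summable_of_sum_le (fun x => div_nonneg (ce_nonneg x) (log_qq_pos x).le) sum_ce_log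

lemma summable_edge (hb : ∀ x, ‖b x‖ ≤ M / (x.2 + 1 : ℕ)) :
    Summable fun x : PP => ‖pb b x‖ * wt 1 x := by
  refine Summable.of_nonneg_of_le (fun x => mul_nonneg (norm_nonneg _) (wt_nonneg _ _)) ?_
    (summable_ce_log.mul_left M)
  intro x
  rw [norm_pb, wt_one]
  unfold ce
  have h1 := hb x
  have h2 := log_qq_pos x
  have h3 : (0 : ℝ) < qq x := by exact_mod_cast (by have := two_le_qq x; omega : 0 < qq x)
  have h4 : (0 : ℝ) < (x.2 + 1 : ℕ) := by positivity
  calc ‖b x‖ / Real.log (qq x) * (1 / (qq x : ℝ))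
      ≤ (M / (x.2 + 1 : ℕ)) / Real.log (qq x) * (1 / (qq x : ℝ)) :=
        mul_le_mul_of_nonneg_right (div_le_div_of_nonneg_right h1 h2.le) (by positivity)
    _ = _ := by field_simp

lemma norm_tm_pb {s : ℂ} (hs : 1 ≤ s.re) (x : PP) :
    ‖tm (pb b) s x‖ ≤ ‖pb b x‖ * wt 1 x := by
  rw [norm_tm]
  exact mul_le_mul_of_nonneg_left (wt_anti hs x) (norm_nonneg _)

/-- the primitive is continuous up to the edge -/
lemma continuousOn_P (hb : ∀ x, ‖b x‖ ≤ M / (x.2 + 1 : ℕ)) :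
    ContinuousOn (FF (pb b)) {s : ℂ | 1 ≤ s.re} := by
  unfold FF
  exact continuousOn_tsum (fun x => (continuous_tm _ x).continuousOn) (summable_edge hb)
    fun x s hs => norm_tm_pb hs x

lemma hasDerivAt_tm (b : PP → ℂ) (x : PP) (s : ℂ) :
    HasDerivAt (fun s => tm (pb b) s x) (tm b s x) s := by
  have hne : ((x.1 : ℕ) : ℂ) ≠ 0 := by exact_mod_cast x.1.2.ne_zero
  unfold tm
  have h1 : HasDerivAt (fun s : ℂ => ((x.1 : ℕ) : ℂ) ^ (-s))
      (((x.1 : ℕ) : ℂ) ^ (-s) * Complex.log ((x.1 : ℕ) : ℂ) * (-1)) s :=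
    ((hasDerivAt_id s).neg).const_cpow (Or.inl hne)
  have h2 := (h1.pow (x.2 + 1)).const_mul (pb b x)
  refine h2.congr_deriv ?_
  have h3 : Complex.log ((x.1 : ℕ) : ℂ) = ((Real.log (x.1 : ℕ) : ℝ) : ℂ) := by
    rw [Complex.natCast_log]
  have h4 : ((Real.log (qq x) : ℝ) : ℂ) = ((x.2 + 1 : ℕ) : ℂ) * ((Real.log (x.1 : ℕ) : ℝ) : ℂ) := by
    rw [log_qq]
    push_cast
    ring
  have h5 : ((Real.log (qq x) : ℝ) : ℂ) ≠ 0 := by exact_mod_cast (log_qq_pos x).ne'
  rw [h3]
  unfold pb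
  rw [Nat.add_sub_cancel]
  have h6 : -(b x) / ((Real.log (qq x) : ℝ) : ℂ) * (((x.2 + 1 : ℕ) : ℂ) *
      (((x.1 : ℕ) : ℂ) ^ (-s)) ^ x.2 *
      (((x.1 : ℕ) : ℂ) ^ (-s) * ((Real.log (x.1 : ℕ) : ℝ) : ℂ) * (-1))) =
      (b x / ((Real.log (qq x) : ℝ) : ℂ)) *
        (((x.2 + 1 : ℕ) : ℂ) * ((Real.log (x.1 : ℕ) : ℝ) : ℂ)) *
        ((((x.1 : ℕ) : ℂ) ^ (-s)) ^ (x.2 + 1)) := by
    rw [pow_succ]
    ring
  rw [h6, ← h4, div_mul_cancel₀ _ h5]

lemma hasDerivAt_P (hb : ∀ x, ‖b x‖ ≤ M / (x.2 + 1 : ℕ)) {s : ℂ} (hs : 1 < s.re) :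
    HasDerivAt (FF (pb b)) (FF b s) s := by
  have hopen : IsOpen {s : ℂ | 1 < s.re} := isOpen_lt continuous_const Complex.continuous_re
  have hd : ∀ x, DifferentiableOn ℂ (fun s => tm (pb b) s x) {s : ℂ | 1 < s.re} := fun x s _ =>
    (hasDerivAt_tm b x s).differentiableAt.differentiableWithinAt
  have h1 := Complex.hasSum_deriv_of_summable_norm (summable_edge hb) hd hopen
    (fun x s hs => norm_tm_pb (le_of_lt hs) x) hs
  have h2 : DifferentiableAt ℂ (FF (pb b)) s :=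
    (differentiableOn_FF (norm_pb_le hb)).differentiableAt (hopen.mem_nhds hs)
  have h3 : deriv (FF (pb b)) s = FF b s := by
    have h4 : HasSum (fun x => tm b s x) (deriv (FF (pb b)) s) := by
      have h5 : (fun x => deriv (fun s => tm (pb b) s x) s) = fun x => tm b s x := by
        funext x
        exact (hasDerivAt_tm b x s).deriv
      rw [← h5]
      exact h1
    exact h4.tsum_eq.symm
  rw [← h3]
  exact h2.hasDerivAt

end Pool.Agent.E8helper17.MC
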