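import Pool.Agent.E8helper17.MC.A

/-!
# The primitive on the edge is the primitive of the boundary function
-/

set_option autoImplicit false

namespace Pool.Agent.E8helper17.MC

open Complex Set Filter Topology MeasureTheory
open Pool.Agent.TH339.MP
open scoped Interval

variable {b : PP → ℂ} {M : ℝ}

lemma PS_eq_tm (b : PP → ℂ) (X : ℕ) (τ : ℝ) :
    PS b X τ = ∑ x ∈ TX X, tm b (1 + τ * I) x := by
  unfold PS
  refine Finset.sum_congr rfl fun x _ => ?_
  have := tm_eq b 1 τ x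
  rw [Complex.ofReal_one] at this
  exact this.symm

lemma TX_tendsto : Tendsto TX atTop atTop := by
  refine tendsto_atTop_finset_of_monotone ?_ ?_
  · intro X Y hXY x hx
    rw [mem_TX] at hx ⊢
    exact hx.trans hXY
  · intro x
    exact ⟨qq x, (mem_TX _ _).2 le_rfl⟩

lemma one_le_re (τ : ℝ) : 1 ≤ ((1 : ℂ) + τ * I).re := by simp

lemma summable_tm_pb (hb : ∀ x, ‖b x‖ ≤ M / (x.2 + 1 : ℕ)) {s : ℂ} (hs : 1 ≤ s.re) :
    Summable fun x => tm (pb b) s x :=
  Summable.of_norm_bounded (summable_edge hb) fun x => norm_tm_pb hs x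

lemma PS_pb_tendsto (hb : ∀ x, ‖b x‖ ≤ M / (x.2 + 1 : ℕ)) (τ : ℝ) :
    Tendsto (fun X => PS (pb b) X τ) atTop (𝓝 (FF (pb b) (1 + τ * I))) := by
  have h1 := (summable_tm_pb hb (one_le_re τ)).hasSum.comp TX_tendsto
  refine h1.congr fun X => ?_
  rw [PS_eq_tm]
  rfl

lemma hasDerivAt_PS (b : PP → ℂ) (X : ℕ) (τ : ℝ) :
    HasDerivAt (PS (pb b) X) (I * PS b X τ) τ := by
  have h1 : PS (pb b) X = fun τ : ℝ => ∑ x ∈ TX X, tm (pb b) (1 + τ * I) x := by
    funext τ
    exact PS_eq_tm _ _ _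
  rw [h1, PS_eq_tm, Finset.mul_sum]
  refine HasDerivAt.fun_sum fun x _ => ?_
  have h2 : HasDerivAt (fun τ : ℝ => (1 : ℂ) + τ * I) I τ := by
    have h3 : HasDerivAt (fun τ : ℝ => (τ : ℂ)) 1 τ := Complex.ofRealCLM.hasDerivAt
    have h4 := (h3.mul_const I).const_add (1 : ℂ)
    rw [one_mul] at h4
    exact h4
  have h5 := (hasDerivAt_tm b x (1 + τ * I)).scomp τ h2
  rw [smul_eq_mul] at h5
  exact h5

lemma integral_PS (b : PP → ℂ) (X : ℕ) (a c : ℝ) :
    I * ∫ u in a..c, PS b X u = PS (pb b) X c - PS (pb b) X a := by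
  rw [← intervalIntegral.integral_const_mul]
  refine intervalIntegral.integral_eq_sub_of_hasDerivAt (fun t _ => hasDerivAt_PS b X t) ?_
  exact (continuous_const.mul (continuous_PS b X)).intervalIntegrable _ _

lemma integrableOn_sq (hb : ∀ x, ‖b x‖ ≤ M / (x.2 + 1 : ℕ)) {X : ℕ} (hX : 2 ≤ X) (t : ℝ) :
    IntegrableOn (fun u => ‖bl b u - PS b X u‖ ^ 2) (Icc t (t + 1)) := by
  have hmeas : AEMeasurable (bl b) := (boundary hb).1
  have h1 : AEStronglyMeasurable (fun u => ‖bl b u - PS b X u‖ ^ 2)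
      (volume.restrict (Icc t (t + 1))) := by
    have h2 : AEMeasurable (fun u => bl b u - PS b X u) (volume.restrict (Icc t (t + 1))) :=
      (hmeas.sub (continuous_PS b X).aemeasurable).restrict
    exact ((h2.norm).pow_const 2).aestronglyMeasurable
  refine ⟨h1, ?_⟩
  rw [hasFiniteIntegral_iff_ofReal (Eventually.of_forall fun u => by positivity)]
  exact lt_of_le_of_lt ((boundary hb).2.2 X hX t) ENNReal.ofReal_lt_top

lemma integral_sq (hb : ∀ x, ‖b x‖ ≤ M / (x.2 + 1 : ℕ)) {X : ℕ} (hX : 2 ≤ X) (t : ℝ) :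
    ∫ u in Icc t (t + 1), ‖bl b u - PS b X u‖ ^ 2 ≤ 64800 * M ^ 2 / Real.log X := by
  have h1 := (boundary hb).2.2 X hX t
  rw [integral_eq_lintegral_of_nonneg_ae (Eventually.of_forall fun u => by positivity)
    (integrableOn_sq hb hX t).1]
  refine ENNReal.toReal_le_of_le_ofReal ?_ h1
  have : 0 < Real.log X := Real.log_pos (by exact_mod_cast (by omega : 1 < X))
  positivity

lemma norm_le_add {δ : ℝ} (hδ : 0 < δ) (x : ℂ) : ‖x‖ ≤ δ + ‖x‖ ^ 2 / δ := by
  have h1 : 0 ≤ (‖x‖ - δ) ^ 2 := sq_nonneg _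
  have h2 : ‖x‖ * δ ≤ δ * δ + ‖x‖ ^ 2 := by nlinarith [norm_nonneg x, mul_nonneg (norm_nonneg x) hδ.le]
  have h3 : δ + ‖x‖ ^ 2 / δ = (δ * δ + ‖x‖ ^ 2) / δ := by field_simp
  rw [h3, le_div_iff₀ hδ]
  exact h2

lemma integrableOn_diff (hb : ∀ x, ‖b x‖ ≤ M / (x.2 + 1 : ℕ)) {X : ℕ} (hX : 2 ≤ X) (t : ℝ) :
    IntegrableOn (fun u => bl b u - PS b X u) (Icc t (t + 1)) := by
  have hmeas : AEMeasurable (bl b) := (boundary hb).1
  have h2 : AEMeasurable (fun u => bl b u - PS b X u) (volume.restrict (Icc t (t + 1))) :=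
    (hmeas.sub (continuous_PS b X).aemeasurable).restrict
  have h3 : IntegrableOn (fun u => (1 : ℝ) + ‖bl b u - PS b X u‖ ^ 2 / 1) (Icc t (t + 1)) := by
    refine Integrable.add ?_ ((integrableOn_sq hb hX t).div_const 1)
    exact integrableOn_const (by simp)
  refine Integrable.mono' h3 h2.aestronglyMeasurable (Eventually.of_forall fun u => ?_)
  exact norm_le_add one_pos _

lemma integrableOn_bl (hb : ∀ x, ‖b x‖ ≤ M / (x.2 + 1 : ℕ)) (t : ℝ) :
    IntegrableOn (bl b) (Icc t (t + 1)) := by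
  have h1 := integrableOn_diff hb (le_refl 2) t
  have h2 : IntegrableOn (PS b 2) (Icc t (t + 1)) :=
    (continuous_PS b 2).continuousOn.integrableOn_compact isCompact_Icc
  have h3 := h1.add h2
  refine h3.congr (Eventually.of_forall fun u => ?_)
  simp

lemma integral_norm_diff (hb : ∀ x, ‖b x‖ ≤ M / (x.2 + 1 : ℕ)) {X : ℕ} (hX : 2 ≤ X) (t : ℝ) :
    ∫ u in Icc t (t + 1), ‖bl b u - PS b X u‖ ≤ (1 + 64800 * M ^ 2) / Real.sqrt (Real.log X) := by
  have hl : 0 < Real.log X := Real.log_pos (by exact_mod_cast (by omega : 1 < X))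
  set q : ℝ := Real.sqrt (Real.log X) with hq
  have hq0 : 0 < q := Real.sqrt_pos.2 hl
  have hqq : q * q = Real.log X := Real.mul_self_sqrt hl.le
  have h1 : ∫ u in Icc t (t + 1), ‖bl b u - PS b X u‖ ≤
      ∫ u in Icc t (t + 1), (q⁻¹ + ‖bl b u - PS b X u‖ ^ 2 / q⁻¹) := by
    refine integral_mono (integrableOn_diff hb hX t).norm ?_ fun u => norm_le_add (inv_pos.2 hq0) _
    refine Integrable.add (integrableOn_const (by simp)) ((integrableOn_sq hb hX t).div_const _)
  refine h1.trans ?_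
  have hconst : Integrable (fun _ : ℝ => q⁻¹) (volume.restrict (Icc t (t + 1))) :=
    integrableOn_const (by simp)
  rw [integral_add hconst ((integrableOn_sq hb hX t).div_const _), integral_div]
  have h2 := integral_sq hb hX t
  have h3 : ∫ _u in Icc t (t + 1), q⁻¹ = q⁻¹ := by
    rw [setIntegral_const]
    simp
  rw [h3]
  have h4 : (∫ u in Icc t (t + 1), ‖bl b u - PS b X u‖ ^ 2) / q⁻¹ ≤
      (64800 * M ^ 2 / Real.log X) / q⁻¹ :=
    div_le_div_of_nonneg_right h2 (inv_pos.2 hq0).le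
  have h5 : (64800 * M ^ 2 / Real.log X) / q⁻¹ = 64800 * M ^ 2 / q := by
    rw [← hqq]
    field_simp
  rw [h5] at h4
  calc q⁻¹ + (∫ u in Icc t (t + 1), ‖bl b u - PS b X u‖ ^ 2) / q⁻¹ ≤ q⁻¹ + 64800 * M ^ 2 / q := by
        linarith
    _ = _ := by field_simp

/-- **The primitive on the edge.** -/
theorem integral_bl_aux (hb : ∀ x, ‖b x‖ ≤ M / (x.2 + 1 : ℕ)) {a c : ℝ} (hac : a ≤ c)
    (hca : c ≤ a + 1) :
    IntervalIntegrable (bl b) volume a c ∧
    I * ∫ u in a..c, bl b u = FF (pb b) (1 + c * I) - FF (pb b) (1 + a * I) := by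
  have hsub : Icc a c ⊆ Icc a (a + 1) := Icc_subset_Icc_right hca
  have hint : IntervalIntegrable (bl b) volume a c := by
    rw [intervalIntegrable_iff_integrableOn_Icc_of_le hac]
    exact (integrableOn_bl hb a).mono_set hsub
  refine ⟨hint, ?_⟩
  have hlim : Tendsto (fun X => I * ∫ u in a..c, PS b X u) atTop
      (𝓝 (FF (pb b) (1 + c * I) - FF (pb b) (1 + a * I))) := by
    have h1 := (PS_pb_tendsto hb c).sub (PS_pb_tendsto hb a)
    refine h1.congr fun X => ?_
    exact (integral_PS b X a c).symm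
  have hlim2 : Tendsto (fun X => I * ∫ u in a..c, PS b X u) atTop
      (𝓝 (I * ∫ u in a..c, bl b u)) := by
    refine Tendsto.const_mul I ?_
    rw [tendsto_iff_norm_sub_tendsto_zero]
    have hz : Tendsto (fun X : ℕ => (1 + 64800 * M ^ 2) / Real.sqrt (Real.log X)) atTop (𝓝 0) := by
      refine Tendsto.div_atTop tendsto_const_nhds ?_
      exact Real.tendsto_sqrt_atTop.comp (Real.tendsto_log_atTop.comp tendsto_natCast_atTop_atTop)
    refine squeeze_zero' (Eventually.of_forall fun X => norm_nonneg _) ?_ hz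
    filter_upwards [eventually_ge_atTop 2] with X hX
    have h2 : (∫ u in a..c, PS b X u) - ∫ u in a..c, bl b u =
        ∫ u in a..c, (PS b X u - bl b u) :=
      (intervalIntegral.integral_sub ((continuous_PS b X).intervalIntegrable _ _) hint).symm
    rw [h2]
    refine (intervalIntegral.norm_integral_le_integral_norm hac).trans ?_
    rw [intervalIntegral.integral_of_le hac, ← integral_Icc_eq_integral_Ioc]
    have h3 : ∫ u in Icc a c, ‖PS b X u - bl b u‖ ≤ ∫ u in Icc a (a + 1), ‖bl b u - PS b X u‖ := by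
      have h4 : ∀ u, ‖PS b X u - bl b u‖ = ‖bl b u - PS b X u‖ := fun u => norm_sub_rev _ _
      simp_rw [h4]
      exact setIntegral_mono_set (integrableOn_diff hb hX a).norm
        (Eventually.of_forall fun u => norm_nonneg _) hsub.eventuallyLE
    exact h3.trans (integral_norm_diff hb hX a)
  exact tendsto_nhds_unique hlim2 hlim

theorem integral_bl (hb : ∀ x, ‖b x‖ ≤ M / (x.2 + 1 : ℕ)) (τ₀ : ℝ) {t : ℝ} (ht : |t| ≤ 1) :
    IntervalIntegrable (fun u => bl b (τ₀ + u)) volume 0 t ∧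
    I * ∫ u in (0 : ℝ)..t, bl b (τ₀ + u) =
      FF (pb b) (1 + ((τ₀ + t : ℝ) : ℂ) * I) - FF (pb b) (1 + τ₀ * I) := by
  have hch := intervalIntegral.integral_comp_add_left (bl b) (a := 0) (b := t) τ₀
  rw [add_zero] at hch
  rcases le_total 0 t with h | h
  · rw [abs_of_nonneg h] at ht
    obtain ⟨h1, h2⟩ := integral_bl_aux hb (a := τ₀) (c := τ₀ + t) (by linarith) (by linarith)
    refine ⟨?_, ?_⟩
    · have h3 := h1.comp_add_left (c := τ₀)
      simpa using h3
    · rw [hch]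
      exact h2
  · rw [abs_of_nonpos h] at ht
    obtain ⟨h1, h2⟩ := integral_bl_aux hb (a := τ₀ + t) (c := τ₀) (by linarith) (by linarith)
    refine ⟨?_, ?_⟩
    · have h3 := h1.symm.comp_add_left (c := τ₀)
      simpa using h3
    · rw [hch, intervalIntegral.integral_symm, mul_neg, h2]
      ring

end Pool.Agent.E8helper17.MC
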