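import Mathlib

/-!
# Reflection in the imaginary axis
-/

set_option autoImplicit false

namespace Pool.Agent.E8helper17.MC

open Complex Set Filter Topology MeasureTheory ComplexConjugate
open scoped Interval

/-- the function `z ↦ conj (f (-conj z))` -/
noncomputable def sharp (f : ℂ → ℂ) (z : ℂ) : ℂ := conj (f (-conj z))

lemma sharp_eq (f : ℂ → ℂ) : sharp f = conj ∘ (fun w => f (-w)) ∘ conj := rfl

lemma sharp_sharp (f : ℂ → ℂ) : sharp (sharp f) = f := by
  funext z
  unfold sharp
  simp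

lemma neg_conj_re (z : ℂ) : (-conj z).re = -z.re := by simp

lemma neg_conj_im (z : ℂ) : (-conj z).im = z.im := by simp

lemma norm_neg_conj (z : ℂ) : ‖-conj z‖ = ‖z‖ := by simp

lemma neg_conj_line (t : ℝ) : -conj ((t : ℂ) * I) = (t : ℂ) * I := by simp

lemma sharp_line (f : ℂ → ℂ) (t : ℝ) : sharp f (t * I) = conj (f (t * I)) := by
  unfold sharp
  rw [neg_conj_line]

lemma differentiableAt_sharp {f : ℂ → ℂ} {z : ℂ} (h : DifferentiableAt ℂ f (-conj z)) :
    DifferentiableAt ℂ (sharp f) z := by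
  have h1 : DifferentiableAt ℂ (fun w => f (-w)) (conj z) := by
    have h0 : DifferentiableAt ℂ (fun w : ℂ => -w) (conj z) := differentiable_neg.differentiableAt
    exact DifferentiableAt.comp (conj z) h h0
  have h2 := h1.conj_conj
  rw [Complex.conj_conj] at h2
  exact h2

/-- the boundary integral -/
noncomputable def bi (f : ℂ → ℂ) (a b c d : ℝ) : ℂ :=
  (∫ x : ℝ in a..b, f (x + c * I)) - (∫ x : ℝ in a..b, f (x + d * I)) +
    I • (∫ y : ℝ in c..d, f (b + y * I)) - I • (∫ y : ℝ in c..d, f (a + y * I))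

lemma bi_split {f : ℂ → ℂ} {a b c d m : ℝ} (hf : ContinuousOn f ([[a, b]] ×ℂ [[c, d]]))
    (hm : m ∈ [[a, b]]) : bi f a b c d = bi f a m c d + bi f m b c d := by
  have hx : ∀ e ∈ [[c, d]], ∀ p ∈ [[a, b]], ∀ q ∈ [[a, b]],
      IntervalIntegrable (fun x : ℝ => f (x + e * I)) volume p q := by
    intro e he p hp q hq
    refine ContinuousOn.intervalIntegrable ?_
    refine hf.comp (by fun_prop) ?_
    intro x hx
    rw [mem_reProdIm]
    refine ⟨?_, ?_⟩
    · have : ((x : ℂ) + e * I).re = x := by simp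
      rw [this]
      exact uIcc_subset_uIcc hp hq hx
    · have : ((x : ℂ) + e * I).im = e := by simp
      rw [this]
      exact he
  unfold bi
  rw [← intervalIntegral.integral_add_adjacent_intervals
      (hx c left_mem_uIcc a left_mem_uIcc m hm) (hx c left_mem_uIcc m hm b right_mem_uIcc),
    ← intervalIntegral.integral_add_adjacent_intervals
      (hx d right_mem_uIcc a left_mem_uIcc m hm) (hx d right_mem_uIcc m hm b right_mem_uIcc)]
  ring

lemma bi_zero {f : ℂ → ℂ} {a b c d : ℝ} (hf : ContinuousOn f ([[a, b]] ×ℂ [[c, d]]))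
    (hd : DifferentiableOn ℂ f (Ioo (min a b) (max a b) ×ℂ Ioo (min c d) (max c d))) :
    bi f a b c d = 0 := by
  have h := integral_boundary_rect_eq_zero_of_continuousOn_of_differentiableOn f
    (a + c * I) (b + d * I) (by simpa using hf) (by simpa using hd)
  unfold bi
  simpa using h

/-- **Reflection.** -/
theorem reflect {P Φ : ℂ → ℂ} {r : ℝ}
    (hc : ContinuousOn P (Metric.ball 0 r ∩ {z | 0 ≤ z.re}))
    (hd : ∀ z ∈ Metric.ball (0 : ℂ) r, 0 < z.re → HasDerivAt P (Φ z) z)
    (him : ∀ t : ℝ, |t| < r → (P (t * I)).im = 0) :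
    ∃ Ψ : ℂ → ℂ, DifferentiableOn ℂ Ψ (Metric.ball 0 r) ∧
      ∀ z ∈ Metric.ball (0 : ℂ) r, 0 < z.re → Ψ z = Φ z := by
  classical
  have hopenR : IsOpen {z : ℂ | 0 < z.re} := isOpen_lt continuous_const Complex.continuous_re
  have hopenL : IsOpen {z : ℂ | z.re < 0} := isOpen_lt Complex.continuous_re continuous_const
  have hclL : IsClosed {z : ℂ | z.re ≤ 0} := isClosed_le Complex.continuous_re continuous_const
  have hclR : IsClosed {z : ℂ | 0 ≤ z.re} := isClosed_le continuous_const Complex.continuous_re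
  set Q : ℂ → ℂ := fun z => if 0 ≤ z.re then P z else sharp P z with hQ
  have hQR : ∀ z : ℂ, 0 ≤ z.re → Q z = P z := fun z hz => if_pos hz
  have hQL : ∀ z : ℂ, z.re < 0 → Q z = sharp P z := fun z hz => if_neg (not_le.2 hz)
  have hball : ∀ z ∈ Metric.ball (0 : ℂ) r, -conj z ∈ Metric.ball (0 : ℂ) r := by
    intro z hz
    rw [mem_ball_zero_iff] at hz ⊢
    rwa [norm_neg_conj]
  -- continuity
  have hcont : ContinuousOn Q (Metric.ball 0 r) := by
    refine ContinuousOn.if (p := fun z : ℂ => 0 ≤ z.re) ?_ ?_ ?_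
    · rintro z ⟨hz, hfr⟩
      have h1 : z.re = 0 := by
        have h2 : z ∈ frontier {z : ℂ | 0 ≤ z.re} := hfr
        rw [Complex.frontier_setOfPred_le_re] at h2
        exact h2
      have h3 : z = ((z.im : ℝ) : ℂ) * I := by
        apply Complex.ext <;> simp [h1]
      have h4 : |z.im| < r := by
        rw [mem_ball_zero_iff] at hz
        exact (Complex.abs_im_le_norm z).trans_lt hz
      have h5 := him z.im h4
      have h6 : -conj z = z := by rw [h3]; exact neg_conj_line _
      unfold sharp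
      rw [h6, ← h3] at *
      rw [← h3] at h5
      exact (Complex.conj_eq_iff_im.2 h5).symm
    · rw [hclR.closure_eq]
      exact hc
    · have h1 : closure {z : ℂ | ¬ 0 ≤ z.re} ⊆ {z : ℂ | z.re ≤ 0} :=
        closure_minimal (fun z hz => by
          have : ¬ 0 ≤ z.re := hz
          exact (not_le.1 this).le) hclL
      refine ContinuousOn.mono ?_ (inter_subset_inter_right _ h1)
      unfold sharp
      refine Complex.continuous_conj.comp_continuousOn ?_
      refine hc.comp (Complex.continuous_conj.neg).continuousOn ?_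
      rintro z ⟨hz, hz2⟩
      refine ⟨hball z hz, ?_⟩
      have hz2' : z.re ≤ 0 := hz2
      change 0 ≤ (-conj z).re
      rw [neg_conj_re]
      linarith
  -- differentiability off the axis
  have hdR : ∀ z ∈ Metric.ball (0 : ℂ) r, 0 < z.re → DifferentiableAt ℂ Q z := by
    intro z hz hz1
    have h1 : Q =ᶠ[𝓝 z] P := by
      filter_upwards [hopenR.mem_nhds hz1] with w hw
      exact hQR w (le_of_lt hw)
    exact ((hd z hz hz1).differentiableAt).congr_of_eventuallyEq h1
  have hdL : ∀ z ∈ Metric.ball (0 : ℂ) r, z.re < 0 → DifferentiableAt ℂ Q z := by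
    intro z hz hz1
    have h1 : Q =ᶠ[𝓝 z] sharp P := by
      filter_upwards [hopenL.mem_nhds hz1] with w hw
      exact hQL w hw
    refine DifferentiableAt.congr_of_eventuallyEq ?_ h1
    refine differentiableAt_sharp (hd _ (hball z hz) ?_).differentiableAt
    rw [neg_conj_re]
    linarith
  -- the integrals over the rectangles
  have hcons : Complex.IsConservativeOn Q (Metric.ball 0 r) := by
    intro z w hzw
    rw [← add_eq_zero_iff_eq_neg, wedgeIntegral_add_wedgeIntegral_eq]
    change bi Q z.re w.re z.im w.im = 0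
    have hsub : [[z.re, w.re]] ×ℂ [[z.im, w.im]] ⊆ Metric.ball 0 r := hzw
    have hone : ∀ a ∈ [[z.re, w.re]], ∀ b ∈ [[z.re, w.re]], (0 ≤ a ∧ 0 ≤ b) ∨ (a ≤ 0 ∧ b ≤ 0) →
        bi Q a b z.im w.im = 0 := by
      intro a ha b hb hab
      have hs : [[a, b]] ×ℂ [[z.im, w.im]] ⊆ Metric.ball 0 r := by
        refine Subset.trans ?_ hsub
        intro u hu
        rw [mem_reProdIm] at hu ⊢
        exact ⟨uIcc_subset_uIcc ha hb hu.1, hu.2⟩
      refine bi_zero (hcont.mono hs) ?_
      intro u hu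
      rw [mem_reProdIm] at hu
      have hu' : u ∈ Metric.ball (0 : ℂ) r := by
        apply hs
        rw [mem_reProdIm]
        exact ⟨Ioo_subset_Icc_self hu.1, Ioo_subset_Icc_self hu.2⟩
      refine DifferentiableAt.differentiableWithinAt ?_
      rcases hab with ⟨h1, h2⟩ | ⟨h1, h2⟩
      · refine hdR u hu' ?_
        exact lt_of_le_of_lt (le_min h1 h2) hu.1.1
      · refine hdL u hu' ?_
        exact lt_of_lt_of_le hu.1.2 (max_le h1 h2)
    by_cases h : (0 ≤ z.re ∧ 0 ≤ w.re) ∨ (z.re ≤ 0 ∧ w.re ≤ 0)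
    · exact hone _ left_mem_uIcc _ right_mem_uIcc h
    · have h0 : (0 : ℝ) ∈ [[z.re, w.re]] := by
        rw [mem_uIcc]
        by_contra hcon
        apply h
        by_cases h1 : 0 ≤ z.re <;> by_cases h2 : 0 ≤ w.re
        · exact Or.inl ⟨h1, h2⟩
        · exact absurd (Or.inr ⟨(not_le.1 h2).le, h1⟩) hcon
        · exact absurd (Or.inl ⟨(not_le.1 h1).le, h2⟩) hcon
        · exact Or.inr ⟨(not_le.1 h1).le, (not_le.1 h2).le⟩
      rw [bi_split (hcont.mono hsub) h0]
      have e1 : bi Q z.re 0 z.im w.im = 0 := by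
        refine hone _ left_mem_uIcc _ h0 ?_
        rcases le_total 0 z.re with h1 | h1
        · exact Or.inl ⟨h1, le_rfl⟩
        · exact Or.inr ⟨h1, le_rfl⟩
      have e2 : bi Q 0 w.re z.im w.im = 0 := by
        refine hone _ h0 _ right_mem_uIcc ?_
        rcases le_total 0 w.re with h1 | h1
        · exact Or.inl ⟨le_rfl, h1⟩
        · exact Or.inr ⟨le_rfl, h1⟩
      rw [e1, e2, add_zero]
  have hdiff : DifferentiableOn ℂ Q (Metric.ball 0 r) :=
    (isConservativeOn_and_continuousOn_iff_isDifferentiableOn Metric.isOpen_ball).1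
      ⟨hcons, hcont⟩
  refine ⟨deriv Q, hdiff.deriv Metric.isOpen_ball, fun z hz hz1 => ?_⟩
  have h1 : Q =ᶠ[𝓝 z] P := by
    filter_upwards [hopenR.mem_nhds hz1] with w hw
    exact hQR w (le_of_lt hw)
  rw [h1.deriv_eq]
  exact (hd z hz hz1).deriv

end Pool.Agent.E8helper17.MC
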