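import Pool.Agent.E8helper17.MC.B

/-!
# Meromorphic functions with given values on the imaginary axis
-/

set_option autoImplicit false

namespace Pool.Agent.E8helper17.MC

open Complex Set Filter Topology MeasureTheory ComplexConjugate

lemma continuous_neg_conj : Continuous fun z : ℂ => -conj z := Complex.continuous_conj.neg

lemma tendsto_neg_conj (z : ℂ) : Tendsto (fun w : ℂ => -conj w) (𝓝 z) (𝓝 (-conj z)) :=
  continuous_neg_conj.tendsto z

lemma neg_conj_injective : Function.Injective fun z : ℂ => -conj z := by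
  intro z w h
  have h1 : conj z = conj w := neg_injective h
  exact (starRingEnd ℂ).injective h1

lemma tendsto_neg_conj_ne (z : ℂ) :
    Tendsto (fun w : ℂ => -conj w) (𝓝[≠] z) (𝓝[≠] (-conj z)) := by
  refine tendsto_nhdsWithin_iff.2 ⟨(tendsto_neg_conj z).mono_left nhdsWithin_le_nhds, ?_⟩
  filter_upwards [self_mem_nhdsWithin] with w hw
  intro h
  exact hw (neg_conj_injective h)

lemma analyticAt_sharp {f : ℂ → ℂ} {z : ℂ} (h : AnalyticAt ℂ f (-conj z)) :
    AnalyticAt ℂ (sharp f) z := by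
  rw [Complex.analyticAt_iff_eventually_differentiableAt] at h ⊢
  filter_upwards [(tendsto_neg_conj z).eventually h] with w hw
  exact differentiableAt_sharp hw

lemma sharp_zpow_smul (f : ℂ → ℂ) (z : ℂ) (n : ℤ) :
    sharp (fun w => (w - -conj z) ^ n • f w) = fun w => (-1) ^ n * ((w - z) ^ n * sharp f w) := by
  funext w
  unfold sharp
  simp only [smul_eq_mul]
  rw [map_mul, map_zpow₀]
  have h1 : conj (-conj w - -conj z) = (-1) * (w - z) := by
    simp
    ring
  rw [h1, mul_zpow]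
  ring

lemma meromorphicAt_sharp {f : ℂ → ℂ} {z : ℂ} (h : MeromorphicAt f (-conj z)) :
    MeromorphicAt (sharp f) z := by
  obtain ⟨n, hn⟩ := h
  have h2 := analyticAt_sharp hn
  refine ⟨n, ?_⟩
  have h3 : (fun w => (w - z) ^ n • sharp f w) =
      fun w => (-1) ^ n * sharp (fun w => (w - -conj z) ^ n • f w) w := by
    funext w
    have h4 := congrFun (sharp_zpow_smul f z (n : ℤ)) w
    simp only [zpow_natCast] at h4
    rw [h4, smul_eq_mul, ← mul_assoc ((-1 : ℂ) ^ n), ← mul_pow]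
    norm_num
  rw [h3]
  exact analyticAt_const.mul h2

lemma order_sharp {f : ℂ → ℂ} {z : ℂ} (h : MeromorphicAt f (-conj z)) :
    meromorphicOrderAt (sharp f) z = meromorphicOrderAt f (-conj z) := by
  rcases eq_or_ne (meromorphicOrderAt f (-conj z)) ⊤ with ht | ht
  · rw [ht, meromorphicOrderAt_eq_top_iff]
    rw [meromorphicOrderAt_eq_top_iff] at ht
    filter_upwards [(tendsto_neg_conj_ne z).eventually ht] with w hw
    unfold sharp
    rw [hw, map_zero]
  · obtain ⟨n, hn⟩ := WithTop.ne_top_iff_exists.1 ht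
    rw [← hn]
    obtain ⟨g, hg1, hg2, hg3⟩ := (meromorphicOrderAt_eq_int_iff h).1 hn.symm
    rw [meromorphicOrderAt_eq_int_iff (meromorphicAt_sharp h)]
    refine ⟨fun w => (-1) ^ n * sharp g w, analyticAt_const.mul (analyticAt_sharp hg1), ?_, ?_⟩
    · refine mul_ne_zero (zpow_ne_zero _ (by norm_num)) ?_
      unfold sharp
      exact (map_ne_zero _).2 hg2
    · filter_upwards [(tendsto_neg_conj_ne z).eventually hg3] with w hw
      have h4 := congrFun (sharp_zpow_smul g z n) w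
      have h5 : sharp f w = sharp (fun w => (w - -conj z) ^ n • g w) w := by
        unfold sharp
        rw [hw]
      rw [h5, h4, smul_eq_mul]
      ring

/-- points of a set of full measure to the right -/
lemma freq_right {p : ℝ → Prop} {a δ : ℝ} (hδ : 0 < δ) (h : ∀ᵐ t : ℝ, |t - a| < δ → p t) :
    ∃ᶠ t in 𝓝[>] a, p t := by
  intro hcon
  rw [eventually_iff, mem_nhdsGT_iff_exists_Ioo_subset] at hcon
  obtain ⟨u, hu, hsub⟩ := hcon
  have hu' : a < u := hu
  have h1 : volume (Ioo a (min u (a + δ))) = 0 := by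
    refine measure_mono_null ?_ (ae_iff.1 h)
    intro t ht
    have h2 : t ∈ Ioo a u := ⟨ht.1, lt_of_lt_of_le ht.2 (min_le_left _ _)⟩
    have h3 := hsub h2
    intro h4
    refine h3 (h4 ?_)
    rw [abs_lt]
    have := lt_of_lt_of_le ht.2 (min_le_right _ _)
    have := ht.1
    constructor <;> linarith
  rw [Real.volume_Ioo, ENNReal.ofReal_eq_zero] at h1
  have : a < min u (a + δ) := lt_min hu' (by linarith)
  linarith

/-- points of a set of full measure to the left -/
lemma freq_left {p : ℝ → Prop} {a δ : ℝ} (hδ : 0 < δ) (h : ∀ᵐ t : ℝ, |t - a| < δ → p t) :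
    ∃ᶠ t in 𝓝[<] a, p t := by
  intro hcon
  rw [eventually_iff, mem_nhdsLT_iff_exists_Ioo_subset] at hcon
  obtain ⟨u, hu, hsub⟩ := hcon
  have hu' : u < a := hu
  have h1 : volume (Ioo (max u (a - δ)) a) = 0 := by
    refine measure_mono_null ?_ (ae_iff.1 h)
    intro t ht
    have h2 : t ∈ Ioo u a := ⟨lt_of_le_of_lt (le_max_left _ _) ht.1, ht.2⟩
    have h3 := hsub h2
    intro h4
    refine h3 (h4 ?_)
    rw [abs_lt]
    have := lt_of_le_of_lt (le_max_right _ _) ht.1
    have := ht.2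
    constructor <;> linarith
  rw [Real.volume_Ioo, ENNReal.ofReal_eq_zero] at h1
  have : max u (a - δ) < a := max_lt hu' (by linarith)
  linarith

lemma tendsto_line (a : ℝ) : Tendsto (fun t : ℝ => (t : ℂ) * I) (𝓝 a) (𝓝 (a * I)) :=
  (Continuous.mul Complex.continuous_ofReal continuous_const).tendsto a

lemma tendsto_line_ne (a : ℝ) : Tendsto (fun t : ℝ => (t : ℂ) * I) (𝓝[≠] a) (𝓝[≠] (a * I)) := by
  refine tendsto_nhdsWithin_iff.2 ⟨(tendsto_line a).mono_left nhdsWithin_le_nhds, ?_⟩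
  filter_upwards [self_mem_nhdsWithin] with t ht
  intro h
  apply ht
  have h1 : (t : ℂ) * I = a * I := h
  have h2 := mul_right_cancel₀ Complex.I_ne_zero h1
  have h3 : t = a := by exact_mod_cast h2
  exact h3

/-- A meromorphic function is determined near a point of the axis by its values at almost all
points of the axis. -/
lemma eq_of_line {f g : ℂ → ℂ} {a δ : ℝ} (hδ : 0 < δ) (hf : MeromorphicAt f (a * I))
    (hg : MeromorphicAt g (a * I)) (h : ∀ᵐ t : ℝ, |t - a| < δ → f (t * I) = g (t * I)) :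
    ∀ᶠ z in 𝓝[≠] ((a : ℂ) * I), f z = g z := by
  have h1 := (hf.sub hg).eventually_eq_zero_or_eventually_ne_zero
  rcases h1 with h1 | h1
  · filter_upwards [h1] with z hz
    exact sub_eq_zero.1 hz
  · exfalso
    have h2 := freq_right hδ h
    have h3 : ∀ᶠ t : ℝ in 𝓝[>] a, (f - g) ((t : ℂ) * I) ≠ 0 :=
      ((tendsto_line_ne a).mono_left (nhdsWithin_mono _ fun t ht => ne_of_gt ht)).eventually h1
    obtain ⟨t, ht1, ht2⟩ := (h2.and_eventually h3).exists
    exact ht2 (sub_eq_zero.2 ht1)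

/-- **Parity.** A meromorphic function with positive values at almost all points of the axis near
`0` is `(-1)^m z^{2m} κ(z)` with `κ(0) > 0`. -/
lemma parity {K : ℂ → ℂ} (hK : MeromorphicAt K 0) {δ : ℝ} (hδ : 0 < δ)
    (hpos : ∀ᵐ t : ℝ, |t| < δ → 0 < (K (t * I)).re ∧ (K (t * I)).im = 0) :
    ∃ m : ℤ, ∃ κ : ℂ → ℂ, AnalyticAt ℂ κ 0 ∧ 0 < (κ 0).re ∧ (κ 0).im = 0 ∧
      meromorphicOrderAt K 0 = (2 * m : ℤ) ∧
      ∀ᶠ z in 𝓝[≠] (0 : ℂ), K z = (-1) ^ m * z ^ (2 * m) * κ z := by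
  have hpos' : ∀ᵐ t : ℝ, |t - 0| < δ → 0 < (K (t * I)).re ∧ (K (t * I)).im = 0 := by
    simpa using hpos
  have hR := freq_right hδ hpos'
  have hL := freq_left hδ hpos'
  have htop : meromorphicOrderAt K 0 ≠ ⊤ := by
    intro ht
    rw [meromorphicOrderAt_eq_top_iff] at ht
    have h1 : ∀ᶠ t : ℝ in 𝓝[>] 0, K ((t : ℂ) * I) = 0 := by
      have h2 := (tendsto_line_ne 0).mono_left
        (nhdsWithin_mono (0 : ℝ) (s := Ioi 0) fun t ht => ne_of_gt ht)
      rw [Complex.ofReal_zero, zero_mul] at h2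
      exact h2.eventually ht
    obtain ⟨t, ht1, ht2⟩ := (hR.and_eventually h1).exists
    rw [ht2] at ht1
    simp at ht1
  obtain ⟨n, hn⟩ := WithTop.ne_top_iff_exists.1 htop
  obtain ⟨g, hg1, hg2, hg3⟩ := (meromorphicOrderAt_eq_int_iff hK).1 hn.symm
  simp only [sub_zero, smul_eq_mul] at hg3
  set u : ℝ → ℂ := fun t => I ^ n * g (t * I) with hu
  have hu0 : Tendsto u (𝓝 0) (𝓝 (I ^ n * g 0)) := by
    refine Tendsto.const_mul _ ?_
    have h1 := tendsto_line 0
    rw [Complex.ofReal_zero, zero_mul] at h1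
    exact hg1.continuousAt.tendsto.comp h1
  have hKu : ∀ᶠ t : ℝ in 𝓝[≠] 0, K ((t : ℂ) * I) = (t : ℂ) ^ n * u t := by
    have h2 := tendsto_line_ne 0
    rw [Complex.ofReal_zero, zero_mul] at h2
    filter_upwards [h2.eventually hg3] with t ht
    rw [ht, mul_zpow, hu]
    ring
  have hcl : IsClosed {w : ℂ | 0 ≤ w.re ∧ w.im = 0} :=
    (isClosed_le continuous_const Complex.continuous_re).inter
      (isClosed_eq Complex.continuous_im continuous_const)
  have hne : I ^ n * g 0 ≠ 0 := mul_ne_zero (zpow_ne_zero _ Complex.I_ne_zero) hg2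
  have h1 : I ^ n * g 0 ∈ {w : ℂ | 0 ≤ w.re ∧ w.im = 0} := by
    refine hcl.mem_of_frequently_of_tendsto (b := 𝓝[>] (0 : ℝ)) (f := u) ?_
      (hu0.mono_left nhdsWithin_le_nhds)
    have h2 : ∀ᶠ t : ℝ in 𝓝[>] 0, K ((t : ℂ) * I) = (t : ℂ) ^ n * u t :=
      hKu.filter_mono (nhdsWithin_mono _ fun t ht => ne_of_gt ht)
    refine (hR.and_eventually (h2.and self_mem_nhdsWithin)).mono ?_
    rintro t ⟨⟨ha, hb⟩, hc, hd⟩
    have hd' : (0 : ℝ) < t := hd
    have h3 : (0 : ℝ) < t ^ n := zpow_pos hd' n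
    have h4 : K ((t : ℂ) * I) = ((t ^ n : ℝ) : ℂ) * u t := by rw [hc]; push_cast; rfl
    rw [h4] at ha hb
    rw [Complex.re_ofReal_mul] at ha
    rw [Complex.im_ofReal_mul] at hb
    exact ⟨(pos_of_mul_pos_right ha h3.le).le, (mul_eq_zero.1 hb).resolve_left h3.ne'⟩
  have h2 : (-1) ^ n * (I ^ n * g 0) ∈ {w : ℂ | 0 ≤ w.re ∧ w.im = 0} := by
    refine hcl.mem_of_frequently_of_tendsto (b := 𝓝[<] (0 : ℝ)) (f := fun t => (-1) ^ n * u t) ?_
      ((hu0.mono_left nhdsWithin_le_nhds).const_mul _)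
    have h2 : ∀ᶠ t : ℝ in 𝓝[<] 0, K ((t : ℂ) * I) = (t : ℂ) ^ n * u t :=
      hKu.filter_mono (nhdsWithin_mono _ fun t ht => ne_of_lt ht)
    refine (hL.and_eventually (h2.and self_mem_nhdsWithin)).mono ?_
    rintro t ⟨⟨ha, hb⟩, hc, hd⟩
    have hd' : (0 : ℝ) < -t := by
      have : t < 0 := hd
      linarith
    have h3 : (0 : ℝ) < (-t) ^ n := zpow_pos hd' n
    have h4 : K ((t : ℂ) * I) = (((-t) ^ n : ℝ) : ℂ) * ((-1) ^ n * u t) := by
      have h5 : (((-t) ^ n : ℝ) : ℂ) * (-1) ^ n = (t : ℂ) ^ n := by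
        push_cast
        rw [← mul_zpow]
        congr 1
        ring
      rw [← mul_assoc, h5]
      exact hc
    rw [h4] at ha hb
    rw [Complex.re_ofReal_mul] at ha
    rw [Complex.im_ofReal_mul] at hb
    exact ⟨(pos_of_mul_pos_right ha h3.le).le, (mul_eq_zero.1 hb).resolve_left h3.ne'⟩
  have heven : Even n := by
    by_contra hodd
    rw [Int.not_even_iff_odd] at hodd
    rw [hodd.neg_one_zpow] at h2
    obtain ⟨a1, a2⟩ := h1
    obtain ⟨a3, a4⟩ := h2
    apply hne
    apply Complex.ext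
    · have : ((-1 : ℂ) * (I ^ n * g 0)).re = -(I ^ n * g 0).re := by simp
      rw [this] at a3
      rw [Complex.zero_re]
      linarith
    · rw [a2, Complex.zero_im]
  obtain ⟨m, hm⟩ := heven
  have hm2 : n = 2 * m := by omega
  have hI : I ^ n = (-1) ^ m := by
    rw [hm2, zpow_mul]
    congr 1
    exact_mod_cast Complex.I_sq
  have hsq : ((-1 : ℂ)) ^ m * (-1) ^ m = 1 := by
    rw [← mul_zpow]
    norm_num
  refine ⟨m, fun z => (-1) ^ m * g z, analyticAt_const.mul hg1, ?_, ?_, ?_, ?_⟩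
  · rw [hI] at h1 hne
    refine lt_of_le_of_ne h1.1 fun h => hne ?_
    exact Complex.ext h.symm h1.2
  · rw [hI] at h1
    exact h1.2
  · rw [← hn, hm2]
  · filter_upwards [hg3] with z hz
    rw [hz, hm2]
    calc z ^ (2 * m) * g z = ((-1 : ℂ) ^ m * (-1) ^ m) * (z ^ (2 * m) * g z) := by
          rw [hsq, one_mul]
      _ = _ := by ring

end Pool.Agent.E8helper17.MC
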