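import Pool.Agent.E8helper17.MC.A2
import Pool.Agent.E8helper17.MC.C

/-!
# The continuation from the modulus on the edge
-/

set_option autoImplicit false

namespace Pool.Agent.E8helper17.MC

open Complex Set Filter Topology MeasureTheory ComplexConjugate
open Pool.Agent.TH339.MP
open scoped Interval

variable {b : PP → ℂ} {M : ℝ}

/-- `z log z - z` -/
noncomputable def zl (z : ℂ) : ℂ := z * Complex.log z - z

lemma hasDerivAt_zl {z : ℂ} (hz : 0 < z.re) : HasDerivAt zl (Complex.log z) z := by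
  have hs : z ∈ slitPlane := Or.inl hz
  have hne : z ≠ 0 := slitPlane_ne_zero hs
  have h1 := ((hasDerivAt_id z).mul (Complex.hasDerivAt_log hs)).sub (hasDerivAt_id z)
  refine h1.congr_deriv ?_
  simp [mul_inv_cancel₀ hne]

lemma tendsto_zlog : Tendsto (fun z : ℂ => z * Complex.log z) (𝓝 0) (𝓝 0) := by
  rw [tendsto_zero_iff_norm_tendsto_zero]
  have h1 : Tendsto (fun z : ℂ => |‖z‖ * Real.log ‖z‖| + ‖z‖ * Real.pi) (𝓝 0) (𝓝 0) := by
    have h2 : Continuous fun z : ℂ => |‖z‖ * Real.log ‖z‖| + ‖z‖ * Real.pi :=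
      ((Real.continuous_mul_log.comp continuous_norm).abs).add
        (continuous_norm.mul continuous_const)
    have h3 := h2.tendsto 0
    simpa using h3
  refine squeeze_zero (fun z => norm_nonneg _) (fun z => ?_) h1
  have h4 : z * Complex.log z = z * ((Real.log ‖z‖ : ℝ) : ℂ) + z * ((z.arg : ℝ) : ℂ) * I := by
    rw [Complex.log]
    ring
  rw [h4]
  refine (norm_add_le _ _).trans (add_le_add ?_ ?_)
  · rw [norm_mul, Complex.norm_real, Real.norm_eq_abs, abs_mul, abs_of_nonneg (norm_nonneg z)]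
  · rw [norm_mul, norm_mul, Complex.norm_I, mul_one, Complex.norm_real, Real.norm_eq_abs]
    exact mul_le_mul_of_nonneg_left (Complex.abs_arg_le_pi z) (norm_nonneg z)

lemma continuousOn_zl : ContinuousOn zl {z : ℂ | 0 ≤ z.re} := by
  refine ContinuousOn.sub ?_ continuousOn_id
  intro z hz
  by_cases h0 : z = 0
  · subst h0
    refine ContinuousAt.continuousWithinAt ?_
    have h1 := tendsto_zlog
    unfold ContinuousAt
    simpa using h1
  · have hs : z ∈ slitPlane := by
      rw [mem_slitPlane_iff]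
      have hz' : 0 ≤ z.re := hz
      rcases hz'.lt_or_eq with h | h
      · exact Or.inl h
      · refine Or.inr fun him => h0 ?_
        exact Complex.ext h.symm him
    exact (continuousAt_id.mul (continuousAt_clog hs)).continuousWithinAt

lemma zl_line (t : ℝ) : (zl (t * I)).im = t * Real.log t - t := by
  unfold zl
  have h1 : Complex.log (t * I) = ((Real.log t : ℝ) : ℂ) + ((((t : ℂ) * I).arg : ℝ) : ℂ) * I := by
    rw [Complex.log, norm_mul, Complex.norm_I, mul_one, Complex.norm_real, Real.norm_eq_abs,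
      Real.log_abs]
  rw [h1]
  simp

lemma integral_line (A1 A : ℂ → ℂ) {r : ℝ} (hA : ∀ z ∈ Metric.ball (0 : ℂ) r, HasDerivAt A1 (A z) z)
    (hAc : ContinuousOn A (Metric.ball 0 r)) {t : ℝ} (ht : |t| < r) :
    IntervalIntegrable (fun u : ℝ => (A (u * I)).re) volume 0 t ∧
    (A1 (t * I) - A1 0).im = ∫ u in (0 : ℝ)..t, (A (u * I)).re := by
  have hmem : ∀ u ∈ [[(0 : ℝ), t]], (u : ℂ) * I ∈ Metric.ball (0 : ℂ) r := by
    intro u hu
    rw [mem_ball_zero_iff, norm_mul, Complex.norm_I, mul_one, Complex.norm_real, Real.norm_eq_abs]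
    have h1 := abs_sub_left_of_mem_uIcc hu
    rw [sub_zero, sub_zero] at h1
    exact lt_of_le_of_lt h1 ht
  have hcont : ContinuousOn (fun u : ℝ => A (u * I)) [[(0 : ℝ), t]] := by
    refine hAc.comp ?_ hmem
    exact (Continuous.mul Complex.continuous_ofReal continuous_const).continuousOn
  have h1 : ∀ u ∈ [[(0 : ℝ), t]], HasDerivAt (fun u : ℝ => A1 (u * I)) (A (u * I) * I) u := by
    intro u hu
    have h2 : HasDerivAt (fun τ : ℝ => (τ : ℂ) * I) I u := by
      have h3 : HasDerivAt (fun τ : ℝ => (τ : ℂ)) 1 u := Complex.ofRealCLM.hasDerivAt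
      have h4 := h3.mul_const I
      rw [one_mul] at h4
      exact h4
    have h5 := (hA _ (hmem u hu)).scomp u h2
    rw [smul_eq_mul, mul_comm] at h5
    exact h5
  have hint : IntervalIntegrable (fun u : ℝ => A (u * I)) volume 0 t := hcont.intervalIntegrable
  have h2 := intervalIntegral.integral_eq_sub_of_hasDerivAt h1 (hint.mul_const I)
  have hre : IntervalIntegrable (fun u : ℝ => (A (u * I)).re) volume 0 t := by
    refine ContinuousOn.intervalIntegrable ?_
    exact Complex.continuous_re.comp_continuousOn hcont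
  refine ⟨hre, ?_⟩
  have h3 : A1 (t * I) - A1 0 = (∫ u in (0 : ℝ)..t, A (u * I)) * I := by
    rw [← intervalIntegral.integral_mul_const, h2]
    simp
  rw [h3]
  have h4 : ((∫ u in (0 : ℝ)..t, A (u * I)) * I).im = (∫ u in (0 : ℝ)..t, A (u * I)).re := by
    simp
  rw [h4]
  have h5 := Complex.reCLM.intervalIntegral_comp_comm hint
  exact h5.symm

/-- **The core.**  If `exp (2 Re bl)` is on the edge near `1 + iτ₀` the restriction of a
meromorphic function then `exp FF` has a meromorphic continuation to a neighbourhood of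
`1 + iτ₀`. -/
theorem core (hb : ∀ x, ‖b x‖ ≤ M / (x.2 + 1 : ℕ)) (τ₀ : ℝ) {K : ℂ → ℂ} (hK : MeromorphicAt K 0)
    {δ : ℝ} (hδ : 0 < δ)
    (hline : ∀ᵐ t : ℝ, |t| < δ → K (t * I) = ((Real.exp (2 * (bl b (τ₀ + t)).re) : ℝ) : ℂ)) :
    ∃ m : ℤ, meromorphicOrderAt K 0 = (2 * m : ℤ) ∧ ∃ E : ℂ → ℂ, AnalyticAt ℂ E 0 ∧
      ∃ r > 0, ∀ z ∈ Metric.ball (0 : ℂ) r, 0 < z.re →
        Complex.exp (FF b (1 + τ₀ * I + z)) = z ^ m * Complex.exp (E z) := by
  have hpos : ∀ᵐ t : ℝ, |t| < δ → 0 < (K (t * I)).re ∧ (K (t * I)).im = 0 := by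
    filter_upwards [hline] with t ht h
    rw [ht h]
    exact ⟨by rw [ofReal_re]; exact Real.exp_pos _, ofReal_im _⟩
  obtain ⟨m, κ, hκ1, hκ2, hκ3, hord, hK2⟩ := parity hK hδ hpos
  refine ⟨m, hord, ?_⟩
  set A : ℂ → ℂ := fun z => (1 / 2) * Complex.log (κ z) with hA
  have hslit : κ 0 ∈ slitPlane := Or.inl hκ2
  have hA0 : AnalyticAt ℂ A 0 := analyticAt_const.mul (hκ1.clog hslit)
  have e1 : ∀ᶠ z in 𝓝 (0 : ℂ), AnalyticAt ℂ A z := hA0.eventually_analyticAt
  have e2 : ∀ᶠ z in 𝓝 (0 : ℂ), κ z ∈ slitPlane :=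
    hκ1.continuousAt.eventually_mem (isOpen_slitPlane.mem_nhds hslit)
  have e3 : ∀ᶠ z in 𝓝 (0 : ℂ), z ∈ ({0}ᶜ : Set ℂ) → K z = (-1) ^ m * z ^ (2 * m) * κ z :=
    eventually_nhdsWithin_iff.1 hK2
  obtain ⟨r0, hr0, hball⟩ := Metric.eventually_nhds_iff_ball.1 (e1.and (e2.and e3))
  set r : ℝ := min r0 (min δ 1) with hr
  have hr1 : 0 < r := lt_min hr0 (lt_min hδ one_pos)
  have hrr0 : r ≤ r0 := min_le_left _ _
  have hrδ : r ≤ δ := (min_le_right _ _).trans (min_le_left _ _)
  have hr_one : r ≤ 1 := (min_le_right _ _).trans (min_le_right _ _)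
  have hsub : ∀ z ∈ Metric.ball (0 : ℂ) r, z ∈ Metric.ball (0 : ℂ) r0 := fun z hz =>
    Metric.ball_subset_ball hrr0 hz
  have hAd : DifferentiableOn ℂ A (Metric.ball 0 r) := fun z hz =>
    (hball z (hsub z hz)).1.differentiableAt.differentiableWithinAt
  obtain ⟨A1, hA1⟩ := hAd.isExactOn_ball
  have hA1' : ∀ z ∈ Metric.ball (0 : ℂ) r, HasDerivAt A1 (A z) z := hA1
  -- the values of `A` on the axis
  have hAline : ∀ᵐ t : ℝ, |t| < r →
      (bl b (τ₀ + t)).re - m * Real.log t - (A (t * I)).re = 0 := by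
    have hne : ∀ᵐ t : ℝ, t ≠ 0 := by
      rw [ae_iff]
      simp
    filter_upwards [hline, hne] with t ht ht0 htr
    have hmem : (t : ℂ) * I ∈ Metric.ball (0 : ℂ) r := by
      rw [mem_ball_zero_iff, norm_mul, Complex.norm_I, mul_one, Complex.norm_real,
        Real.norm_eq_abs]
      exact htr
    have htI : (t : ℂ) * I ≠ 0 := mul_ne_zero (by exact_mod_cast ht0) Complex.I_ne_zero
    obtain ⟨_, h2, h3⟩ := hball _ (hsub _ hmem)
    have h4 := h3 htI
    rw [ht (lt_of_lt_of_le htr hrδ)] at h4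
    have h5 := congrArg norm h4
    have hκpos : 0 < ‖κ (t * I)‖ := norm_pos_iff.2 (slitPlane_ne_zero h2)
    have habs : 0 < |t| := abs_pos.2 ht0
    rw [Complex.norm_real, Real.norm_of_nonneg (Real.exp_pos _).le, norm_mul, norm_mul,
      norm_zpow, norm_zpow, norm_neg, norm_one, one_zpow, one_mul, norm_mul, Complex.norm_I,
      mul_one, Complex.norm_real, Real.norm_eq_abs] at h5
    have h6 := congrArg Real.log h5
    rw [Real.log_exp, Real.log_mul (zpow_pos habs _).ne' hκpos.ne', Real.log_zpow,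
      Real.log_abs] at h6
    have h7 : (A (t * I)).re = 1 / 2 * Real.log ‖κ (t * I)‖ := by
      have h8 : A (t * I) = ((1 / 2 : ℝ) : ℂ) * Complex.log (κ (t * I)) := by
        rw [hA]
        push_cast
        rfl
      rw [h8, Complex.re_ofReal_mul, Complex.log_re]
    rw [h7]
    push_cast at h6
    linarith
  -- the function to be reflected
  set P : ℂ → ℂ := fun z => (FF (pb b) (1 + τ₀ * I + z) - FF (pb b) (1 + τ₀ * I)) - m * zl z -
    (A1 z - A1 0) with hP
  have hcP : ContinuousOn P (Metric.ball 0 r ∩ {z | 0 ≤ z.re}) := by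
    refine ContinuousOn.sub (ContinuousOn.sub (ContinuousOn.sub ?_ continuousOn_const) ?_) ?_
    · refine (continuousOn_P hb).comp (by fun_prop) ?_
      rintro z ⟨_, hz⟩
      have hz' : 0 ≤ z.re := hz
      change 1 ≤ (1 + τ₀ * I + z).re
      simp
      exact hz'
    · exact continuousOn_const.mul (continuousOn_zl.mono inter_subset_right)
    · refine ContinuousOn.sub ?_ continuousOn_const
      intro z hz
      exact (hA1' z hz.1).continuousAt.continuousWithinAt
  have hdP : ∀ z ∈ Metric.ball (0 : ℂ) r, 0 < z.re →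
      HasDerivAt P (FF b (1 + τ₀ * I + z) - m * Complex.log z - A z) z := by
    intro z hz hz1
    have hre : 1 < (1 + τ₀ * I + z).re := by
      simp
      exact hz1
    have h1 : HasDerivAt (fun z : ℂ => FF (pb b) (1 + τ₀ * I + z)) (FF b (1 + τ₀ * I + z)) z := by
      have h2 : HasDerivAt (fun z : ℂ => 1 + τ₀ * I + z) 1 z := (hasDerivAt_id z).const_add _
      have h3 := (hasDerivAt_P hb hre).comp z h2
      rw [mul_one] at h3
      exact h3
    exact (((h1.sub_const _).sub ((hasDerivAt_zl hz1).const_mul _)).sub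
      ((hA1' z hz).sub_const _))
  have him : ∀ t : ℝ, |t| < r → (P (t * I)).im = 0 := by
    intro t ht
    obtain ⟨hi1, hi2⟩ := integral_bl hb τ₀ (t := t) (ht.le.trans hr_one)
    obtain ⟨hi3, hi4⟩ := integral_line A1 A hA1' hAd.continuousOn ht
    have hre : IntervalIntegrable (fun u => (bl b (τ₀ + u)).re) volume 0 t := by
      exact ⟨hi1.1.re, hi1.2.re⟩
    have h1 : (FF (pb b) (1 + τ₀ * I + t * I) - FF (pb b) (1 + τ₀ * I)).im =
        ∫ u in (0 : ℝ)..t, (bl b (τ₀ + u)).re := by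
      have h2 : (1 + τ₀ * I + t * I : ℂ) = 1 + ((τ₀ + t : ℝ) : ℂ) * I := by
        push_cast
        ring
      rw [h2, ← hi2]
      have h3 : (I * ∫ u in (0 : ℝ)..t, bl b (τ₀ + u)).im = (∫ u in (0 : ℝ)..t, bl b (τ₀ + u)).re := by
        simp
      rw [h3]
      exact (Complex.reCLM.intervalIntegral_comp_comm hi1).symm
    have hlog : IntervalIntegrable (fun u => (m : ℝ) * Real.log u) volume 0 t :=
      intervalIntegral.intervalIntegrable_log'.const_mul _
    have h2 : ((m : ℂ) * zl (t * I)).im = ∫ u in (0 : ℝ)..t, (m : ℝ) * Real.log u := by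
      rw [intervalIntegral.integral_const_mul, integral_log]
      have h3 : ((m : ℂ) * zl (t * I)).im = (m : ℝ) * (zl (t * I)).im := by
        have h4 : (m : ℂ) = ((m : ℝ) : ℂ) := by push_cast; rfl
        rw [h4, Complex.im_ofReal_mul]
      rw [h3, zl_line]
      simp
    have h3 : (P (t * I)).im = ∫ u in (0 : ℝ)..t,
        ((bl b (τ₀ + u)).re - m * Real.log u - (A (u * I)).re) := by
      rw [intervalIntegral.integral_sub (hre.sub hlog) hi3,
        intervalIntegral.integral_sub hre hlog, ← h1, ← h2, ← hi4]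
      simp only [hP, Complex.sub_im]
    rw [h3]
    have h4 : ∫ u in (0 : ℝ)..t, ((bl b (τ₀ + u)).re - m * Real.log u - (A (u * I)).re) =
        ∫ u in (0 : ℝ)..t, (0 : ℝ) := by
      refine intervalIntegral.integral_congr_ae ?_
      filter_upwards [hAline] with u hu hut
      refine hu ?_
      have h5 : u ∈ [[(0 : ℝ), t]] := uIoc_subset_uIcc hut
      have h6 := abs_sub_left_of_mem_uIcc h5
      rw [sub_zero, sub_zero] at h6
      exact lt_of_le_of_lt h6 ht
    rw [h4]
    simp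
  obtain ⟨Ψ, hΨ1, hΨ2⟩ := reflect hcP hdP him
  refine ⟨fun z => A z + Ψ z, hA0.add (hΨ1.analyticAt (Metric.ball_mem_nhds _ hr1)), r, hr1, ?_⟩
  intro z hz hz1
  have h1 := hΨ2 z hz hz1
  have hz0 : z ≠ 0 := fun h => by
    rw [h] at hz1
    simp at hz1
  have h2 : FF b (1 + τ₀ * I + z) = Complex.log z * (m : ℂ) + (A z + Ψ z) := by
    rw [h1]
    ring
  rw [h2, Complex.exp_add, ← Complex.cpow_def_of_ne_zero hz0, Complex.cpow_intCast]

end Pool.Agent.E8helper17.MC
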