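import Pool.Agent.E8helper17.MC.D

/-!
# The criterion for the continuation of an Euler product by its modulus on the edge
-/

set_option autoImplicit false

namespace Pool.Agent.E8helper17.MC

open Complex Set Filter Topology MeasureTheory ComplexConjugate
open Pool.Agent.TH339.MP

/-- An Euler product `f` on the right half-plane and its modulus `m` on the axis. -/
structure Ed (b : PP → ℂ) (D f : ℂ → ℂ) (m : ℝ → ℝ) : Prop where
  bd : ∃ M : ℝ, ∀ x, ‖b x‖ ≤ M / (x.2 + 1 : ℕ)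
  an : ∀ z, AnalyticAt ℂ D z
  cz : {z : ℂ | D z = 0}.Countable
  eq : ∀ z : ℂ, 0 < z.re → f z = (D z)⁻¹ * Complex.exp (FF b (1 + z))
  md : ∀ᵐ τ : ℝ, m τ = ‖D (τ * I)‖⁻¹ * Real.exp (bl b τ).re

/-- `Λ` is a meromorphic continuation of `f` to a neighbourhood of `iτ₀`. -/
def Cont (f : ℂ → ℂ) (τ₀ : ℝ) (Λ : ℂ → ℂ) : Prop :=
  MeromorphicAt Λ (τ₀ * I) ∧ ∀ᶠ z in 𝓝 ((τ₀ : ℂ) * I), 0 < z.re → Λ z = f z

/-- `G` is a meromorphic extension of `m²` to a neighbourhood of `iτ₀`. -/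
def Ext (m : ℝ → ℝ) (τ₀ : ℝ) (G : ℂ → ℂ) : Prop :=
  MeromorphicAt G (τ₀ * I) ∧ ∃ δ > 0, ∀ᵐ τ : ℝ, |τ - τ₀| < δ → G (τ * I) = ((m τ ^ 2 : ℝ) : ℂ)

variable {b : PP → ℂ} {D f : ℂ → ℂ} {m : ℝ → ℝ}

lemma line_injective : Function.Injective fun t : ℝ => (t : ℂ) * I := by
  intro s t h
  have h2 := mul_right_cancel₀ Complex.I_ne_zero h
  exact_mod_cast h2

lemma Ed.D_line (H : Ed b D f m) : ∀ᵐ τ : ℝ, D (τ * I) ≠ 0 := by
  have h1 : {τ : ℝ | D (τ * I) = 0}.Countable := H.cz.preimage line_injective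
  have h2 := measure_eq_zero_iff_ae_notMem.1 (h1.measure_zero volume)
  filter_upwards [h2] with τ hτ
  exact hτ

/-- the boundary values -/
noncomputable def lv' (b : PP → ℂ) (D : ℂ → ℂ) (τ : ℝ) : ℂ :=
  (D (τ * I))⁻¹ * Complex.exp (bl b τ)

lemma Ed.norm_lv (H : Ed b D f m) : ∀ᵐ τ : ℝ, lv' b D τ * conj (lv' b D τ) = ((m τ ^ 2 : ℝ) : ℂ) := by
  filter_upwards [H.md] with τ hτ
  rw [Complex.mul_conj, Complex.normSq_eq_norm_sq]
  congr 2
  rw [hτ]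
  unfold lv'
  rw [norm_mul, norm_inv, Complex.norm_exp]

lemma Ed.radial (H : Ed b D f m) :
    ∀ᵐ τ : ℝ, Tendsto (fun ε : ℝ => f (τ * I + ε)) (𝓝[>] 0) (𝓝 (lv' b D τ)) := by
  obtain ⟨M, hb⟩ := H.bd
  filter_upwards [ae_notMem hb, H.D_line] with τ hτ hD
  have h1 := radial_x hb hτ
  have hz : Tendsto (fun ε : ℝ => (τ : ℂ) * I + ε) (𝓝[>] 0) (𝓝 (τ * I)) := by
    have h3 : Tendsto (fun ε : ℝ => (τ : ℂ) * I + ε) (𝓝 0) (𝓝 (τ * I + (0 : ℝ))) :=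
      (continuous_const.add Complex.continuous_ofReal).tendsto 0
    rw [Complex.ofReal_zero, add_zero] at h3
    exact h3.mono_left nhdsWithin_le_nhds
  have h2 : Tendsto (fun ε : ℝ => (D (τ * I + ε))⁻¹) (𝓝[>] 0) (𝓝 ((D (τ * I))⁻¹)) := by
    refine Tendsto.inv₀ ?_ hD
    exact (H.an (τ * I)).continuousAt.tendsto.comp hz
  refine (h2.mul ((Complex.continuous_exp.tendsto _).comp h1)).congr' ?_
  filter_upwards [self_mem_nhdsWithin] with ε hε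
  have hε' : (0 : ℝ) < ε := hε
  rw [H.eq _ (by simpa using hε')]
  simp only [Function.comp]
  rw [add_assoc]

lemma mem_ball_neg_conj {τ₀ r : ℝ} {z : ℂ} (h : z ∈ Metric.ball ((τ₀ : ℂ) * I) r) :
    -conj z ∈ Metric.ball ((τ₀ : ℂ) * I) r := by
  rw [Metric.mem_ball, dist_eq_norm] at h ⊢
  have h1 : -conj z - (τ₀ : ℂ) * I = -conj (z - τ₀ * I) := by
    rw [map_sub, map_mul, Complex.conj_I, Complex.conj_ofReal]
    ring
  rw [h1, norm_neg_conj]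
  exact h

lemma neg_conj_ne {τ₀ : ℝ} {z : ℂ} (h : z ≠ (τ₀ : ℂ) * I) : -conj z ≠ (τ₀ : ℂ) * I := by
  intro h1
  apply h
  have h2 : -conj z = -conj ((τ₀ : ℂ) * I) := by rw [h1, neg_conj_line]
  exact neg_conj_injective h2

lemma mem_ball_line {τ₀ τ r : ℝ} (h : |τ - τ₀| < r) :
    (τ : ℂ) * I ∈ Metric.ball ((τ₀ : ℂ) * I) r := by
  rw [Metric.mem_ball, dist_eq_norm, ← sub_mul, norm_mul, Complex.norm_I, mul_one,
    ← Complex.ofReal_sub, Complex.norm_real, Real.norm_eq_abs]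
  exact h

/-- values of a continuation on the axis -/
lemma Ed.value (H : Ed b D f m) {τ₀ : ℝ} {Λ : ℂ → ℂ} (hΛ : Cont f τ₀ Λ) :
    ∃ δ > 0, ∀ᵐ τ : ℝ, |τ - τ₀| < δ → Λ (τ * I) = lv' b D τ := by
  obtain ⟨h1, h2⟩ := hΛ
  have h3 : ∀ᶠ z in 𝓝 ((τ₀ : ℂ) * I), z ∈ ({(τ₀ : ℂ) * I}ᶜ : Set ℂ) → AnalyticAt ℂ Λ z :=
    eventually_nhdsWithin_iff.1 h1.eventually_analyticAt
  obtain ⟨r, hr, hball⟩ := Metric.eventually_nhds_iff_ball.1 (h2.and h3)
  refine ⟨r, hr, ?_⟩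
  have hne : ∀ᵐ t : ℝ, t ≠ τ₀ := by
    rw [ae_iff]
    simp
  filter_upwards [H.radial, hne] with τ hτ hτ0 hτr
  have hmem := mem_ball_line hτr
  have hcont := ((hball _ hmem).2 (fun h => hτ0 (line_injective h))).continuousAt
  have hz : Tendsto (fun ε : ℝ => (τ : ℂ) * I + ε) (𝓝[>] 0) (𝓝 (τ * I)) := by
    have h3 : Tendsto (fun ε : ℝ => (τ : ℂ) * I + ε) (𝓝 0) (𝓝 (τ * I + (0 : ℝ))) :=
      (continuous_const.add Complex.continuous_ofReal).tendsto 0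
    rw [Complex.ofReal_zero, add_zero] at h3
    exact h3.mono_left nhdsWithin_le_nhds
  have h4 := hcont.tendsto.comp hz
  refine tendsto_nhds_unique h4 (hτ.congr' ?_)
  filter_upwards [self_mem_nhdsWithin, hz.eventually_mem (Metric.isOpen_ball.mem_nhds hmem)]
    with ε hε hε2
  have hε' : (0 : ℝ) < ε := hε
  exact ((hball _ hε2).1 (by simpa using hε')).symm

/-- From the continuation to the extension. -/
lemma Ed.ext_of_cont (H : Ed b D f m) {τ₀ : ℝ} {Λ : ℂ → ℂ} (hΛ : Cont f τ₀ Λ) :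
    Ext m τ₀ (fun z => Λ z * sharp Λ z) := by
  refine ⟨hΛ.1.mul (meromorphicAt_sharp ?_), ?_⟩
  · rw [neg_conj_line]
    exact hΛ.1
  · obtain ⟨δ, hδ, h1⟩ := H.value hΛ
    refine ⟨δ, hδ, ?_⟩
    filter_upwards [h1, H.norm_lv] with τ h2 h3 h4
    rw [sharp_line, h2 h4, h3]

/-- The extension is the product of the continuation and its reflection. -/
lemma Ed.eq_prod (H : Ed b D f m) {τ₀ : ℝ} {Λ G : ℂ → ℂ} (hΛ : Cont f τ₀ Λ) (hG : Ext m τ₀ G) :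
    ∀ᶠ z in 𝓝[≠] ((τ₀ : ℂ) * I), G z = Λ z * sharp Λ z := by
  obtain ⟨h1, δ1, hδ1, h2⟩ := H.ext_of_cont hΛ
  obtain ⟨h3, δ2, hδ2, h4⟩ := hG
  refine eq_of_line (lt_min hδ1 hδ2) h3 h1 ?_
  filter_upwards [h2, h4] with τ h5 h6 h7
  rw [h5 (h7.trans_le (min_le_left _ _)), h6 (h7.trans_le (min_le_right _ _))]

lemma Ed.order_eq (H : Ed b D f m) {τ₀ : ℝ} {Λ G : ℂ → ℂ} (hΛ : Cont f τ₀ Λ) (hG : Ext m τ₀ G) :
    meromorphicOrderAt G (τ₀ * I) =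
      meromorphicOrderAt Λ (τ₀ * I) + meromorphicOrderAt Λ (τ₀ * I) := by
  have h0 : MeromorphicAt Λ (-conj ((τ₀ : ℂ) * I)) := by
    rw [neg_conj_line]
    exact hΛ.1
  have h1 := H.eq_prod hΛ hG
  have h2 : G =ᶠ[𝓝[≠] ((τ₀ : ℂ) * I)] (Λ * sharp Λ) := h1
  rw [meromorphicOrderAt_congr h2, meromorphicOrderAt_mul hΛ.1 (meromorphicAt_sharp h0),
    order_sharp h0, neg_conj_line]

lemma Ed.order_ne_top (H : Ed b D f m) {τ₀ : ℝ} {G : ℂ → ℂ} (hG : Ext m τ₀ G) :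
    meromorphicOrderAt G (τ₀ * I) ≠ ⊤ := by
  intro ht
  obtain ⟨h3, δ2, hδ2, h4⟩ := hG
  rw [meromorphicOrderAt_eq_top_iff] at ht
  have h5 : ∀ᵐ τ : ℝ, |τ - τ₀| < δ2 → G (τ * I) ≠ 0 := by
    filter_upwards [h4, H.norm_lv, H.D_line] with τ h6 h7 h8 h9
    rw [h6 h9, ← h7]
    have : lv' b D τ ≠ 0 := mul_ne_zero (inv_ne_zero h8) (Complex.exp_ne_zero _)
    exact mul_ne_zero this ((map_ne_zero _).2 this)
  have h2 := freq_right hδ2 h5
  have h6 : ∀ᶠ t : ℝ in 𝓝[>] τ₀, G ((t : ℂ) * I) = 0 :=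
    ((tendsto_line_ne τ₀).mono_left (nhdsWithin_mono _ fun t ht => ne_of_gt ht)).eventually ht
  obtain ⟨t, ht1, ht2⟩ := (h2.and_eventually h6).exists
  exact ht1 ht2

/-- From the extension to the continuation. -/
theorem Ed.cont_of_ext (H : Ed b D f m) {τ₀ : ℝ} {G : ℂ → ℂ} (hG : Ext m τ₀ G) :
    ∃ Λ, Cont f τ₀ Λ := by
  obtain ⟨M, hb⟩ := H.bd
  obtain ⟨h3, δ, hδ, h4⟩ := hG
  have htr : AnalyticAt ℂ (fun z : ℂ => (τ₀ : ℂ) * I + z) 0 := by fun_prop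
  have hDs : ∀ z, AnalyticAt ℂ (sharp D) z := fun z => analyticAt_sharp (H.an _)
  set K : ℂ → ℂ := fun z => G (τ₀ * I + z) * (D (τ₀ * I + z) * sharp D (τ₀ * I + z)) with hK
  have hKm : MeromorphicAt K 0 := by
    refine MeromorphicAt.mul ?_ ?_
    · have h5 : MeromorphicAt G ((fun z : ℂ => (τ₀ : ℂ) * I + z) 0) := by
        simpa using h3
      exact h5.comp_analyticAt htr
    · have h6 : AnalyticAt ℂ (fun z : ℂ => D (τ₀ * I + z)) 0 := (H.an _).fun_comp htr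
      have h7 : AnalyticAt ℂ (fun z : ℂ => sharp D (τ₀ * I + z)) 0 := (hDs _).fun_comp htr
      exact (h6.mul h7).meromorphicAt
  have hline : ∀ᵐ t : ℝ, |t| < δ → K (t * I) = ((Real.exp (2 * (bl b (τ₀ + t)).re) : ℝ) : ℂ) := by
    have h5 : ∀ᵐ τ : ℝ, |τ - τ₀| < δ → G (τ * I) * (D (τ * I) * sharp D (τ * I)) =
        ((Real.exp (2 * (bl b τ).re) : ℝ) : ℂ) := by
      filter_upwards [h4, H.md, H.D_line] with τ h6 h7 h8 h9
      rw [h6 h9, sharp_line, Complex.mul_conj, Complex.normSq_eq_norm_sq, ← Complex.ofReal_mul]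
      congr 1
      rw [h7]
      have h10 : ‖D (τ * I)‖ ≠ 0 := norm_ne_zero_iff.2 h8
      have h11 : Real.exp (2 * (bl b τ).re) = Real.exp (bl b τ).re ^ 2 := by
        rw [← Real.exp_nat_mul]
        push_cast
        rfl
      rw [h11]
      field_simp
    have h6 := (measurePreserving_add_left volume τ₀).quasiMeasurePreserving.ae h5
    filter_upwards [h6] with t ht htδ
    have h7 : |τ₀ + t - τ₀| < δ := by
      rw [add_sub_cancel_left]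
      exact htδ
    have h8 := ht h7
    have h9 : ((τ₀ + t : ℝ) : ℂ) * I = τ₀ * I + t * I := by
      push_cast
      ring
    rw [h9] at h8
    exact h8
  obtain ⟨k, hk, E, hE, r, hr, hfin⟩ := core hb τ₀ hKm hδ hline
  refine ⟨fun w => (D w)⁻¹ * ((w - τ₀ * I) ^ k * Complex.exp (E (w - τ₀ * I))), ?_, ?_⟩
  · have hsub : AnalyticAt ℂ (fun w : ℂ => w - (τ₀ : ℂ) * I) (τ₀ * I) := by fun_prop
    refine (H.an _).meromorphicAt.inv.mul (MeromorphicAt.mul ?_ ?_)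
    · exact hsub.meromorphicAt.zpow k
    · have h5 : AnalyticAt ℂ E ((fun w : ℂ => w - (τ₀ : ℂ) * I) (τ₀ * I)) := by
        simpa using hE
      have h6 : AnalyticAt ℂ (E ∘ fun w : ℂ => w - (τ₀ : ℂ) * I) (τ₀ * I) :=
        AnalyticAt.comp (g := E) (f := fun w : ℂ => w - (τ₀ : ℂ) * I) h5 hsub
      exact h6.cexp.meromorphicAt
  · filter_upwards [Metric.ball_mem_nhds ((τ₀ : ℂ) * I) hr] with z hz hz1
    have h5 : z - τ₀ * I ∈ Metric.ball (0 : ℂ) r := by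
      rw [mem_ball_zero_iff, ← dist_eq_norm]
      exact hz
    have h6 : 0 < (z - (τ₀ : ℂ) * I).re := by
      simpa using hz1
    have h7 := hfin _ h5 h6
    rw [← h7, H.eq z hz1]
    congr 3
    ring

end Pool.Agent.E8helper17.MC
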