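import Pool.Agent.E8helper17.MC.E

/-!
# The global criterion
-/

set_option autoImplicit false

namespace Pool.Agent.E8helper17.MC

open Complex Set Filter Topology MeasureTheory ComplexConjugate
open Pool.Agent.TH339.MP

variable {b : PP → ℂ} {D f : ℂ → ℂ} {m : ℝ → ℝ}

lemma shift_tendsto (z : ℂ) : Tendsto (fun ε : ℝ => z + ε) (𝓝[>] 0) (𝓝 z) := by
  have h3 : Tendsto (fun ε : ℝ => z + (ε : ℂ)) (𝓝 0) (𝓝 (z + (0 : ℝ))) :=
    (continuous_const.add Complex.continuous_ofReal).tendsto 0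
  rw [Complex.ofReal_zero, add_zero] at h3
  exact h3.mono_left nhdsWithin_le_nhds

lemma shift_tendsto_ne (z : ℂ) : Tendsto (fun ε : ℝ => z + ε) (𝓝[>] 0) (𝓝[≠] z) := by
  refine tendsto_nhdsWithin_iff.2 ⟨shift_tendsto z, ?_⟩
  filter_upwards [self_mem_nhdsWithin] with ε hε
  have hε' : (0 : ℝ) < ε := hε
  intro h
  have h1 : z + (ε : ℂ) = z := h
  have h2 : (ε : ℂ) = 0 := by
    have := congrArg (fun w => w - z) h1
    simpa using this
  have h3 : ε = 0 := by exact_mod_cast h2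
  exact hε'.ne' h3

open Classical in
/-- the continuation, from `f` and the extension `G` of `m²` -/
noncomputable def lam (f G : ℂ → ℂ) (z : ℂ) : ℂ :=
  if 0 < z.re then f z else if z.re < 0 then G z * (sharp f z)⁻¹ else
    limUnder (𝓝[>] (0 : ℝ)) (fun ε : ℝ => f (z + ε))

lemma lam_right {f G : ℂ → ℂ} {z : ℂ} (hz : 0 < z.re) : lam f G z = f z := if_pos hz

lemma lam_left {f G : ℂ → ℂ} {z : ℂ} (hz : z.re < 0) : lam f G z = G z * (sharp f z)⁻¹ := by
  unfold lam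
  rw [if_neg (not_lt.2 hz.le), if_pos hz]

lemma lam_axis {f G : ℂ → ℂ} {z l : ℂ} (hz : z.re = 0)
    (h : Tendsto (fun ε : ℝ => f (z + ε)) (𝓝[>] 0) (𝓝 l)) : lam f G z = l := by
  unfold lam
  rw [if_neg (by rw [hz]; exact lt_irrefl _), if_neg (by rw [hz]; exact lt_irrefl _)]
  exact h.limUnder_eq

lemma Ed.cont_order_ne_top (H : Ed b D f m) {τ₀ : ℝ} {Λ : ℂ → ℂ} (hΛ : Cont f τ₀ Λ) :
    meromorphicOrderAt Λ (τ₀ * I) ≠ ⊤ := by
  intro h
  have h1 := H.order_eq hΛ (H.ext_of_cont hΛ)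
  rw [h, top_add] at h1
  exact H.order_ne_top (H.ext_of_cont hΛ) h1

lemma Ed.lam_near (H : Ed b D f m) {τ₀ : ℝ} {Λ G : ℂ → ℂ} (hΛ : Cont f τ₀ Λ) (hG : Ext m τ₀ G) :
    ∀ᶠ z in 𝓝[≠] ((τ₀ : ℂ) * I), lam f G z = Λ z := by
  have h1 := eventually_nhdsWithin_iff.1 (H.eq_prod hΛ hG)
  have h2 := eventually_nhdsWithin_iff.1 hΛ.1.eventually_analyticAt
  have h3 := eventually_nhdsWithin_iff.1
    ((meromorphicOrderAt_ne_top_iff_eventually_ne_zero hΛ.1).1 (H.cont_order_ne_top hΛ))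
  obtain ⟨r, hr, hball⟩ := Metric.eventually_nhds_iff_ball.1 (h1.and (h2.and (h3.and hΛ.2)))
  rw [eventually_nhdsWithin_iff]
  filter_upwards [Metric.ball_mem_nhds _ hr] with z hz hz1
  obtain ⟨a1, a2, a3, a4⟩ := hball z hz
  rcases lt_trichotomy z.re 0 with h | h | h
  · rw [lam_left h, a1 hz1]
    have hz2 : -conj z ≠ (τ₀ : ℂ) * I := neg_conj_ne hz1
    have hz3 : 0 < (-conj z).re := by rw [neg_conj_re]; linarith
    obtain ⟨_, _, c3, c4⟩ := hball _ (mem_ball_neg_conj hz)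
    have h5 : sharp Λ z = sharp f z := by
      unfold sharp
      rw [c4 hz3]
    have h6 : sharp f z ≠ 0 := by
      rw [← h5]
      unfold sharp
      exact (map_ne_zero _).2 (c3 hz2)
    rw [h5, mul_assoc, mul_inv_cancel₀ h6, mul_one]
  · refine lam_axis h ?_
    have h5 := (a2 hz1).continuousAt.tendsto.comp (shift_tendsto z)
    refine h5.congr' ?_
    filter_upwards [self_mem_nhdsWithin,
      (shift_tendsto z).eventually_mem (Metric.isOpen_ball.mem_nhds hz)] with ε hε hε2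
    have hε' : (0 : ℝ) < ε := hε
    refine (hball _ hε2).2.2.2 ?_
    rw [Complex.add_re, h, Complex.ofReal_re]
    linarith
  · rw [lam_right h, a4 h]

/-- The continuation is analytic where the extension of `m²` is. -/
lemma Ed.lam_analytic (H : Ed b D f m) {τ₀ : ℝ} {G : ℂ → ℂ} (hG : Ext m τ₀ G)
    (ha : AnalyticAt ℂ G (τ₀ * I)) : AnalyticAt ℂ (lam f G) (τ₀ * I) := by
  obtain ⟨Λ, hΛ⟩ := H.cont_of_ext hG
  have h1 := H.order_eq hΛ hG
  have h2 : 0 ≤ meromorphicOrderAt G (τ₀ * I) := ha.meromorphicOrderAt_nonneg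
  have h3 : 0 ≤ meromorphicOrderAt Λ (τ₀ * I) := by
    obtain ⟨n, hn⟩ := WithTop.ne_top_iff_exists.1 (H.cont_order_ne_top hΛ)
    rw [← hn] at h1 ⊢
    rw [h1, ← WithTop.coe_add] at h2
    have h4 : (0 : ℤ) ≤ n + n := by exact_mod_cast h2
    have h5 : (0 : ℤ) ≤ n := by omega
    exact_mod_cast h5
  obtain ⟨n, hn⟩ := WithTop.ne_top_iff_exists.1 (H.cont_order_ne_top hΛ)
  rw [← hn] at h3
  have hn0 : (0 : ℤ) ≤ n := by exact_mod_cast h3
  obtain ⟨g, hg1, _, hg3⟩ := (meromorphicOrderAt_eq_int_iff hΛ.1).1 hn.symm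
  obtain ⟨k, rfl⟩ := Int.eq_ofNat_of_zero_le hn0
  set g' : ℂ → ℂ := fun z => (z - τ₀ * I) ^ k * g z with hg'
  have hga : AnalyticAt ℂ g' (τ₀ * I) := by
    have h6 : AnalyticAt ℂ (fun z : ℂ => (z - (τ₀ : ℂ) * I) ^ k) (τ₀ * I) := by fun_prop
    exact h6.mul hg1
  have hev : ∀ᶠ z in 𝓝[≠] ((τ₀ : ℂ) * I), Λ z = g' z := by
    filter_upwards [hg3] with z hz
    rw [hz]
    simp [hg']
  have h7 : lam f G (τ₀ * I) = g' (τ₀ * I) := by
    refine lam_axis (by simp) ?_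
    refine (hga.continuousAt.tendsto.comp (shift_tendsto _)).congr' ?_
    filter_upwards [(shift_tendsto_ne _).eventually hev, (shift_tendsto _).eventually hΛ.2,
      self_mem_nhdsWithin] with ε h8 h9 h10
    have hε' : (0 : ℝ) < ε := h10
    simp only [Function.comp]
    rw [← h8]
    exact h9 (by simpa using hε')
  refine hga.congr ?_
  have h8 := (H.lam_near hΛ hG).and hev
  rw [eventually_nhdsWithin_iff] at h8
  filter_upwards [h8] with z hz
  by_cases h : z = τ₀ * I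
  · rw [h, h7]
  · obtain ⟨h9, h10⟩ := hz h
    rw [h9, h10]

lemma Ed.mero_f (H : Ed b D f m) {z : ℂ} (hz : 0 < z.re) : MeromorphicAt f z := by
  obtain ⟨M, hb⟩ := H.bd
  have hopen : IsOpen {z : ℂ | 0 < z.re} := isOpen_lt continuous_const Complex.continuous_re
  have h1 : f =ᶠ[𝓝 z] fun z => (D z)⁻¹ * Complex.exp (FF b (1 + z)) := by
    filter_upwards [hopen.mem_nhds hz] with w hw
    exact H.eq w hw
  have h2 : AnalyticAt ℂ (FF b) (1 + z) := by
    refine (differentiableOn_FF hb).analyticAt ?_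
    refine (isOpen_lt continuous_const Complex.continuous_re).mem_nhds ?_
    simpa using hz
  have h3 : AnalyticAt ℂ (fun z : ℂ => 1 + z) z := by fun_prop
  have h4 : AnalyticAt ℂ (fun z : ℂ => FF b (1 + z)) z := h2.fun_comp h3
  exact (((H.an z).meromorphicAt.inv).mul h4.cexp.meromorphicAt).congr
    (h1.symm.filter_mono nhdsWithin_le_nhds)

lemma Ed.analytic_f (H : Ed b D f m) {z : ℂ} (hz : 0 < z.re) (hD : D z ≠ 0) :
    AnalyticAt ℂ f z := by
  obtain ⟨M, hb⟩ := H.bd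
  have hopen : IsOpen {z : ℂ | 0 < z.re} := isOpen_lt continuous_const Complex.continuous_re
  have h1 : f =ᶠ[𝓝 z] fun z => (D z)⁻¹ * Complex.exp (FF b (1 + z)) := by
    filter_upwards [hopen.mem_nhds hz] with w hw
    exact H.eq w hw
  have h2 : AnalyticAt ℂ (FF b) (1 + z) := by
    refine (differentiableOn_FF hb).analyticAt ?_
    refine (isOpen_lt continuous_const Complex.continuous_re).mem_nhds ?_
    simpa using hz
  have h3 : AnalyticAt ℂ (fun z : ℂ => 1 + z) z := by fun_prop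
  have h4 : AnalyticAt ℂ (fun z : ℂ => FF b (1 + z)) z := h2.fun_comp h3
  exact (((H.an z).inv hD).mul h4.cexp).congr h1.symm

lemma Ed.ne_zero_f (H : Ed b D f m) {z : ℂ} (hz : 0 < z.re) (hD : D z ≠ 0) : f z ≠ 0 := by
  rw [H.eq z hz]
  exact mul_ne_zero (inv_ne_zero hD) (Complex.exp_ne_zero _)

lemma axis_eq {z : ℂ} (h : z.re = 0) : z = ((z.im : ℝ) : ℂ) * I := by
  apply Complex.ext <;> simp [h]

/-- the domain of the continuation -/
lemma ext_in {W : Set ℂ} (hW : IsOpen W) {G : ℂ → ℂ}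
    (h1 : ∀ z ∈ W, MeromorphicAt G z)
    (h2 : ∀ᵐ τ : ℝ, (τ : ℂ) * I ∈ W → G (τ * I) = ((m τ ^ 2 : ℝ) : ℂ)) {τ₀ : ℝ}
    (h0 : (τ₀ : ℂ) * I ∈ W) : Ext m τ₀ G := by
  obtain ⟨r, hr, hsub⟩ := Metric.isOpen_iff.1 hW _ h0
  refine ⟨h1 _ h0, r, hr, ?_⟩
  filter_upwards [h2] with τ h3 h4
  exact h3 (hsub (mem_ball_line h4))

lemma ae_of_ext {W : Set ℂ} {G : ℂ → ℂ}
    (h : ∀ τ₀ : ℝ, (τ₀ : ℂ) * I ∈ W → ∃ δ > 0, ∀ᵐ τ : ℝ, |τ - τ₀| < δ →
      G (τ * I) = ((m τ ^ 2 : ℝ) : ℂ)) :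
    ∀ᵐ τ : ℝ, (τ : ℂ) * I ∈ W → G (τ * I) = ((m τ ^ 2 : ℝ) : ℂ) := by
  rw [ae_iff]
  refine measure_null_of_locally_null _ fun τ₀ h0 => ?_
  have h0' : (τ₀ : ℂ) * I ∈ W := by
    by_contra hcon
    exact h0 fun h1 => absurd h1 hcon
  obtain ⟨δ, hδ, h5⟩ := h τ₀ h0'
  refine ⟨{τ : ℝ | ¬ (|τ - τ₀| < δ → G (τ * I) = ((m τ ^ 2 : ℝ) : ℂ))}, ?_, ae_iff.1 h5⟩
  rw [mem_nhdsWithin_iff_exists_mem_nhds_inter]
  refine ⟨Metric.ball τ₀ δ, Metric.ball_mem_nhds _ hδ, ?_⟩
  rintro τ ⟨ha, hb⟩ hc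
  refine hb fun _ => hc ?_
  rw [Metric.mem_ball, Real.dist_eq] at ha
  exact ha

/-- **The global criterion**, on every domain. -/
theorem Ed.global (H : Ed b D f m) {W : Set ℂ} (hW : IsOpen W) (hs : ∀ z ∈ W, -conj z ∈ W) :
    (∃ Λ : ℂ → ℂ, (∀ z, 0 < z.re ∨ z ∈ W → MeromorphicAt Λ z) ∧ ∀ z, 0 < z.re → Λ z = f z) ↔
    ∃ G : ℂ → ℂ, (∀ z ∈ W, MeromorphicAt G z) ∧
      ∀ᵐ τ : ℝ, (τ : ℂ) * I ∈ W → G (τ * I) = ((m τ ^ 2 : ℝ) : ℂ) := by
  constructor
  · rintro ⟨Λ, h1, h2⟩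
    refine ⟨fun z => Λ z * sharp Λ z, fun z hz => (h1 z (Or.inr hz)).mul
      (meromorphicAt_sharp (h1 _ (Or.inr (hs z hz)))), ae_of_ext (G := fun z => Λ z * sharp Λ z) fun τ₀ h0 => ?_⟩
    exact (H.ext_of_cont ⟨h1 _ (Or.inr h0), Eventually.of_forall h2⟩).2
  · rintro ⟨G, h1, h2⟩
    refine ⟨lam f G, fun z hzW => ?_, fun z hz => lam_right hz⟩
    rcases lt_trichotomy z.re 0 with h | h | h
    · have hzW' : z ∈ W := hzW.resolve_left (not_lt.2 h.le)
      have hopen : IsOpen {z : ℂ | z.re < 0} := isOpen_lt Complex.continuous_re continuous_const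
      have h3 : lam f G =ᶠ[𝓝 z] fun z => G z * (sharp f z)⁻¹ := by
        filter_upwards [hopen.mem_nhds h] with w hw
        exact lam_left hw
      have h4 : MeromorphicAt (sharp f) z := by
        refine meromorphicAt_sharp (H.mero_f ?_)
        rw [neg_conj_re]
        linarith
      exact ((h1 z hzW').mul h4.inv).congr (h3.symm.filter_mono nhdsWithin_le_nhds)
    · have hzW' : z ∈ W := hzW.resolve_left (not_lt.2 h.le)
      rw [axis_eq h] at hzW' ⊢
      have hG := ext_in hW h1 h2 hzW'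
      obtain ⟨Λ, hΛ⟩ := H.cont_of_ext hG
      refine hΛ.1.congr ?_
      filter_upwards [H.lam_near hΛ hG] with w hw
      exact hw.symm
    · have hopen : IsOpen {z : ℂ | 0 < z.re} := isOpen_lt continuous_const Complex.continuous_re
      have h3 : lam f G =ᶠ[𝓝 z] f := by
        filter_upwards [hopen.mem_nhds h] with w hw
        exact lam_right hw
      exact (H.mero_f h).congr (h3.symm.filter_mono nhdsWithin_le_nhds)

/-- **The criterion for an analytic continuation with at most a pole at `0`**, on every domain. -/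
theorem Ed.q1 (H : Ed b D f m) (hD : ∀ z : ℂ, 0 < z.re → D z ≠ 0) (odd : Prop)
    {W : Set ℂ} (hW : IsOpen W) (hs : ∀ z ∈ W, -conj z ∈ W) :
    (∃ Λ : ℂ → ℂ, (∀ z, 0 < z.re ∨ z ∈ W → MeromorphicAt Λ z ∧ (z ≠ 0 ∨ odd → AnalyticAt ℂ Λ z)) ∧
      ∀ z, 0 < z.re → Λ z = f z) ↔
    ∃ G : ℂ → ℂ, (∀ z ∈ W, MeromorphicAt G z ∧ (z ≠ 0 ∨ odd → AnalyticAt ℂ G z)) ∧
      ∀ᵐ τ : ℝ, (τ : ℂ) * I ∈ W → G (τ * I) = ((m τ ^ 2 : ℝ) : ℂ) := by
  have hz0 : -conj (0 : ℂ) = 0 := by simp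
  have hne : ∀ z : ℂ, z ≠ 0 → -conj z ≠ 0 := fun z hz h => hz (by
    rw [← hz0] at h
    exact neg_conj_injective h)
  constructor
  · rintro ⟨Λ, h1, h2⟩
    refine ⟨fun z => Λ z * sharp Λ z, fun z hz => ⟨(h1 z (Or.inr hz)).1.mul
      (meromorphicAt_sharp (h1 _ (Or.inr (hs z hz))).1), fun ho => ?_⟩,
      ae_of_ext (G := fun z => Λ z * sharp Λ z) fun τ₀ h0 => ?_⟩
    · refine ((h1 z (Or.inr hz)).2 ho).mul (analyticAt_sharp ((h1 _ (Or.inr (hs z hz))).2 ?_))
      exact ho.imp (hne z) id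
    · exact (H.ext_of_cont ⟨(h1 _ (Or.inr h0)).1, Eventually.of_forall h2⟩).2
  · rintro ⟨G, h1, h2⟩
    obtain ⟨hm1, hm2⟩ : (∀ z, 0 < z.re ∨ z ∈ W → MeromorphicAt (lam f G) z) ∧ True := by
      refine ⟨fun z hzW => ?_, trivial⟩
      rcases lt_trichotomy z.re 0 with h | h | h
      · have hzW' : z ∈ W := hzW.resolve_left (not_lt.2 h.le)
        have hopen : IsOpen {z : ℂ | z.re < 0} := isOpen_lt Complex.continuous_re continuous_const
        have h3 : lam f G =ᶠ[𝓝 z] fun z => G z * (sharp f z)⁻¹ := by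
          filter_upwards [hopen.mem_nhds h] with w hw
          exact lam_left hw
        have h4 : MeromorphicAt (sharp f) z := by
          refine meromorphicAt_sharp (H.mero_f ?_)
          rw [neg_conj_re]
          linarith
        exact ((h1 z hzW').1.mul h4.inv).congr (h3.symm.filter_mono nhdsWithin_le_nhds)
      · have hzW' : z ∈ W := hzW.resolve_left (not_lt.2 h.le)
        rw [axis_eq h] at hzW' ⊢
        have hG := ext_in hW (fun z hz => (h1 z hz).1) h2 hzW'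
        obtain ⟨Λ, hΛ⟩ := H.cont_of_ext hG
        refine hΛ.1.congr ?_
        filter_upwards [H.lam_near hΛ hG] with w hw
        exact hw.symm
      · have hopen : IsOpen {z : ℂ | 0 < z.re} :=
          isOpen_lt continuous_const Complex.continuous_re
        have h3 : lam f G =ᶠ[𝓝 z] f := by
          filter_upwards [hopen.mem_nhds h] with w hw
          exact lam_right hw
        exact (H.mero_f h).congr (h3.symm.filter_mono nhdsWithin_le_nhds)
    refine ⟨lam f G, fun z hzW => ⟨hm1 z hzW, fun ho => ?_⟩, fun z hz => lam_right hz⟩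
    rcases lt_trichotomy z.re 0 with h | h | h
    · have hzW' : z ∈ W := hzW.resolve_left (not_lt.2 h.le)
      have hopen : IsOpen {z : ℂ | z.re < 0} := isOpen_lt Complex.continuous_re continuous_const
      have h3 : lam f G =ᶠ[𝓝 z] fun z => G z * (sharp f z)⁻¹ := by
        filter_upwards [hopen.mem_nhds h] with w hw
        exact lam_left hw
      have h5 : 0 < (-conj z).re := by
        rw [neg_conj_re]
        linarith
      have h4 : AnalyticAt ℂ (sharp f) z := analyticAt_sharp (H.analytic_f h5 (hD _ h5))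
      have h6 : sharp f z ≠ 0 := by
        unfold sharp
        exact (map_ne_zero _).2 (H.ne_zero_f h5 (hD _ h5))
      exact (((h1 z hzW').2 ho).mul (h4.inv h6)).congr h3.symm
    · have hzW' : z ∈ W := hzW.resolve_left (not_lt.2 h.le)
      have h5 : z = ((z.im : ℝ) : ℂ) * I := axis_eq h
      have hG := ext_in hW (fun z hz => (h1 z hz).1) h2 (τ₀ := z.im) (by rw [← h5]; exact hzW')
      rw [h5]
      refine H.lam_analytic hG ?_
      rw [← h5]
      exact (h1 z hzW').2 ho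
    · have hopen : IsOpen {z : ℂ | 0 < z.re} :=
        isOpen_lt continuous_const Complex.continuous_re
      have h3 : lam f G =ᶠ[𝓝 z] f := by
        filter_upwards [hopen.mem_nhds h] with w hw
        exact lam_right hw
      exact (H.analytic_f h (hD z h)).congr h3.symm

end Pool.Agent.E8helper17.MC
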