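import Pool.Agent.E8helper17.MC.F
import Pool.Agent.R409.EV.Prod
import Pool.Agent.TH958.BV.Main

/-!
# The modulus on the edge of the L-function of a projective variety
-/

set_option autoImplicit false

namespace Pool.Agent.E8helper17.MC

open NumberField IsDedekindDomain Filter Topology Polynomial MeasureTheory
open Pool.Agent.TH958.BV (IsFrobenius IsEulerSystem localFactor LFun edgePoint angle TT dimH_TT
  universal)
open Pool.Agent.TH339.MP (PP FF bb norm_bb nm bl)
open Pool.Agent.R409.EV (be norm_be DD DD_analytic DD_countable LFun_eq)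

variable {K : Type} [Field K] [NumberField K] {n : ℕ}
variable {X : Set (MvPolynomial (Fin n) (𝓞 K))} {d i N : ℕ}
  {B : HeightOneSpectrum (𝓞 K) → ℂ[X]}

/-- the truncated modulus -/
noncomputable def tmod (B : HeightOneSpectrum (𝓞 K) → ℂ[X]) (i : ℕ) (τ : ℝ) (x : ℕ) : ℝ :=
  ∏ᶠ v ∈ {v : HeightOneSpectrum (𝓞 K) | Ideal.absNorm v.asIdeal < x},
    ‖localFactor B v (edgePoint i τ)‖

/-- the modulus -/
noncomputable def emod (B : HeightOneSpectrum (𝓞 K) → ℂ[X]) (i : ℕ) (τ : ℝ) : ℝ :=
  limUnder atTop (tmod B i τ)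

/-- the L-function in the variable `z = s - (i/2 + 1)` -/
noncomputable def ff (B : HeightOneSpectrum (𝓞 K) → ℂ[X]) (i : ℕ) (z : ℂ) : ℂ :=
  LFun B (z + (((i : ℝ) / 2 + 1 : ℝ) : ℂ))

lemma ff_line (B : HeightOneSpectrum (𝓞 K) → ℂ[X]) (i : ℕ) (τ ε : ℝ) :
    ff B i ((τ : ℂ) * Complex.I + ε) = LFun B (edgePoint i τ + ε) := by
  unfold ff edgePoint
  congr 1
  ring

/-- the limit of the truncated moduli -/
lemma emod_spec (hi : i ≤ 2 * d) (hB : IsEulerSystem X d i N B) {τ : ℝ} (hτ : τ ∉ TT) :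
    0 < emod B i τ ∧ Tendsto (tmod B i τ) atTop (𝓝 (emod B i τ)) ∧
      ∃ l : ℂ, ‖l‖ = emod B i τ ∧
        Tendsto (fun ε : ℝ => ff B i ((τ : ℂ) * Complex.I + ε)) (𝓝[>] 0) (𝓝 l) := by
  obtain ⟨l, h1, h2, h3⟩ := universal X d i N hi B hB τ hτ
  have h4 : Tendsto (tmod B i τ) atTop (𝓝 ‖l‖) := by
    refine h2.norm.congr fun x => ?_
    have hf : {v : HeightOneSpectrum (𝓞 K) | Ideal.absNorm v.asIdeal < x}.Finite :=
      Pool.Agent.W350.EdgeNF.hfin x
    unfold tmod
    rw [finprod_mem_eq_finite_toFinset_prod _ hf, norm_prod]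
    rfl
  have h5 : emod B i τ = ‖l‖ := h4.limUnder_eq
  rw [h5]
  refine ⟨norm_pos_iff.2 h1, h4, l, rfl, ?_⟩
  simp only [ff_line]
  refine (h3 1).comp ?_
  refine tendsto_nhdsWithin_iff.2 ⟨shift_tendsto _, ?_⟩
  filter_upwards [self_mem_nhdsWithin] with ε hε
  have hε' : (0 : ℝ) < ε := hε
  have hre : (edgePoint i τ + ε).re = (i : ℝ) / 2 + 1 + ε := by
    unfold edgePoint
    simp
  refine ⟨by rw [hre]; linarith, ?_⟩
  rw [hre, add_sub_cancel_left, add_sub_cancel_left, Complex.norm_real, Real.norm_of_nonneg hε'.le,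
    one_mul]

/-- the data of the L-function -/
theorem ed_base (hB : IsEulerSystem X d i N B) :
    Ed (bb (be X d i N B)) (fun z => DD hB (1 + z)) (ff B i)
      (fun τ => ‖DD hB (1 + τ * Complex.I)‖⁻¹ * Real.exp (bl (bb (be X d i N B)) τ).re) where
  bd := ⟨_, norm_bb (norm_be X d i N B)⟩
  an := fun z => by
    have h3 : AnalyticAt ℂ (fun z : ℂ => 1 + z) z := by fun_prop
    exact (DD_analytic hB (1 + z)).fun_comp h3
  cz := (DD_countable hB).preimage (add_right_injective (1 : ℂ))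
  eq := fun z hz => by
    have h1 : 1 < (1 + z).re := by simpa using hz
    rw [← LFun_eq hB h1]
    unfold ff
    congr 1
    push_cast
    ring
  md := Eventually.of_forall fun τ => rfl

/-- the data of the L-function with the limit of the truncated moduli -/
theorem ed_main (hi : i ≤ 2 * d) (hB : IsEulerSystem X d i N B) :
    Ed (bb (be X d i N B)) (fun z => DD hB (1 + z)) (ff B i) (emod B i) where
  bd := (ed_base hB).bd
  an := (ed_base hB).an
  cz := (ed_base hB).cz
  eq := (ed_base hB).eq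
  md := by
    have hTT : volume TT = 0 := by
      have h3 := hausdorffMeasure_of_dimH_lt (s := TT) (d := 1) (by rw [dimH_TT]; simp)
      rw [NNReal.coe_one, hausdorffMeasure_real] at h3
      exact h3
    filter_upwards [measure_eq_zero_iff_ae_notMem.1 hTT, (ed_base hB).radial] with τ h1 h2
    obtain ⟨_, _, l, h3, h4⟩ := emod_spec hi hB h1
    have h5 := tendsto_nhds_unique h4 h2
    rw [← h3, h5]
    unfold lv'
    rw [norm_mul, norm_inv, Complex.norm_exp]

end Pool.Agent.E8helper17.MC
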