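import Pool.Agent.E8helper17.MC.G

/-!
# Change of variables
-/

set_option autoImplicit false

namespace Pool.Agent.E8helper17.MC

open NumberField IsDedekindDomain Filter Topology Polynomial MeasureTheory
open Pool.Agent.TH958.BV (IsFrobenius IsEulerSystem localFactor LFun edgePoint angle TT dimH_TT
  universal)
open Pool.Agent.R409.EV (DD)

section

variable {E : ℂ → ℂ}

lemma mul_const_analytic (a z : ℂ) : AnalyticAt ℂ (fun z : ℂ => z * a) z := by fun_prop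

lemma mul_const_deriv {a : ℂ} (ha : a ≠ 0) (z : ℂ) : deriv (fun z : ℂ => z * a) z ≠ 0 := by
  rw [deriv_mul_const_field]
  simpa using ha

lemma mer_mul {a : ℂ} (ha : a ≠ 0) (G : ℂ → ℂ) (z : ℂ) :
    MeromorphicAt (fun z => G (z * a)) z ↔ MeromorphicAt G (z * a) :=
  meromorphicAt_comp_iff_of_deriv_ne_zero (f := G) (mul_const_analytic a z) (mul_const_deriv ha z)

lemma ord_mul {a : ℂ} (ha : a ≠ 0) (G : ℂ → ℂ) (z : ℂ) :
    meromorphicOrderAt (fun z => G (z * a)) z = meromorphicOrderAt G (z * a) :=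
  meromorphicOrderAt_comp_of_deriv_ne_zero (f := G) (mul_const_analytic a z) (mul_const_deriv ha z)

lemma ana_mul {a : ℂ} (G : ℂ → ℂ) {z : ℂ} (h : AnalyticAt ℂ G (z * a)) :
    AnalyticAt ℂ (fun z => G (z * a)) z :=
  AnalyticAt.comp (g := G) (f := fun z : ℂ => z * a) (x := z) h (mul_const_analytic a z)

lemma mer_add (c : ℂ) (Λ : ℂ → ℂ) (z : ℂ) :
    MeromorphicAt (fun z => Λ (z + c)) z ↔ MeromorphicAt Λ (z + c) :=
  meromorphicAt_fun_comp_add_const_iff_meromorphicAt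

lemma ord_add (c : ℂ) (Λ : ℂ → ℂ) (z : ℂ) :
    meromorphicOrderAt (fun z => Λ (z + c)) z = meromorphicOrderAt Λ (z + c) :=
  meromorphicOrderAt_fun_comp_add_const_eq_meromorphicOrderAt

lemma ana_add (c : ℂ) (Λ : ℂ → ℂ) {z : ℂ} (h : AnalyticAt ℂ Λ (z + c)) :
    AnalyticAt ℂ (fun z => Λ (z + c)) z := by
  have h1 : AnalyticAt ℂ (fun z : ℂ => z + c) z := by fun_prop
  exact AnalyticAt.comp (g := Λ) (f := fun z : ℂ => z + c) (x := z) h h1

lemma negI_ne : -Complex.I ≠ 0 := neg_ne_zero.2 Complex.I_ne_zero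

lemma I_negI (z : ℂ) : z * Complex.I * -Complex.I = z := by
  rw [mul_assoc, mul_neg, Complex.I_mul_I, neg_neg, mul_one]

lemma negI_I (z : ℂ) : z * -Complex.I * Complex.I = z := by
  rw [mul_assoc, neg_mul, Complex.I_mul_I, neg_neg, mul_one]

end

variable {K : Type} [Field K] [NumberField K] {n : ℕ}
variable {X : Set (MvPolynomial (Fin n) (𝓞 K))} {d i N : ℕ}
  {B : HeightOneSpectrum (𝓞 K) → ℂ[X]}

/-- the real point of the edge -/
noncomputable def ec (i : ℕ) : ℂ := (((i : ℝ) / 2 + 1 : ℝ) : ℂ)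

lemma ec_eq (i : ℕ) : ec i = (i : ℂ) / 2 + 1 := by
  unfold ec
  push_cast
  rfl

lemma edge_eq (i : ℕ) (τ : ℝ) : edgePoint i τ = (τ : ℂ) * Complex.I + ec i := by
  unfold edgePoint ec
  ring

lemma ff_eq (B : HeightOneSpectrum (𝓞 K) → ℂ[X]) (i : ℕ) (z : ℂ) :
    ff B i z = LFun B (z + ec i) := rfl

/-- local continuation in the variable `s` -/
def LocS (B : HeightOneSpectrum (𝓞 K) → ℂ[X]) (i : ℕ) (τ₀ : ℝ) (Λ : ℂ → ℂ) : Prop :=
  MeromorphicAt Λ (edgePoint i τ₀) ∧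
    ∀ᶠ s in 𝓝 (edgePoint i τ₀), (i : ℝ) / 2 + 1 < s.re → Λ s = LFun B s

/-- local extension in the variable `τ` -/
def ExtT (m : ℝ → ℝ) (τ₀ : ℝ) (G : ℂ → ℂ) : Prop :=
  MeromorphicAt G (τ₀ : ℂ) ∧ ∃ δ > 0, ∀ᵐ τ : ℝ, |τ - τ₀| < δ → G τ = ((m τ ^ 2 : ℝ) : ℂ)

lemma re_add_ec (i : ℕ) (z : ℂ) : (z + ec i).re = z.re + ((i : ℝ) / 2 + 1) := by
  unfold ec
  rw [Complex.add_re, Complex.ofReal_re]

lemma cont_of_locS {τ₀ : ℝ} {Λ : ℂ → ℂ} (h : LocS B i τ₀ Λ) :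
    Cont (ff B i) τ₀ (fun z => Λ (z + ec i)) := by
  obtain ⟨h1, h2⟩ := h
  rw [edge_eq] at h1 h2
  refine ⟨(mer_add _ _ _).2 h1, ?_⟩
  have h3 : Tendsto (fun z : ℂ => z + ec i) (𝓝 ((τ₀ : ℂ) * Complex.I))
      (𝓝 ((τ₀ : ℂ) * Complex.I + ec i)) := (continuous_id.add continuous_const).tendsto _
  filter_upwards [h3.eventually h2] with z hz hz1
  rw [ff_eq]
  refine hz ?_
  rw [re_add_ec]
  linarith

lemma locS_of_cont {τ₀ : ℝ} {Λ : ℂ → ℂ} (h : Cont (ff B i) τ₀ Λ) :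
    LocS B i τ₀ (fun s => Λ (s + -ec i)) := by
  obtain ⟨h1, h2⟩ := h
  have h0 : edgePoint i τ₀ + -ec i = (τ₀ : ℂ) * Complex.I := by
    rw [edge_eq]
    ring
  refine ⟨(mer_add _ _ _).2 ?_, ?_⟩
  · rw [h0]
    exact h1
  · have h3 : Tendsto (fun z : ℂ => z + -ec i) (𝓝 (edgePoint i τ₀))
        (𝓝 ((τ₀ : ℂ) * Complex.I)) := by
      rw [← h0]
      exact (continuous_id.add continuous_const).tendsto _
    filter_upwards [h3.eventually h2] with s hs hs1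
    have h4 : 0 < (s + -ec i).re := by
      have := re_add_ec i (s + -ec i)
      rw [neg_add_cancel_right] at this
      linarith
    rw [hs h4, ff_eq, neg_add_cancel_right]

lemma ext_of_extT {m : ℝ → ℝ} {τ₀ : ℝ} {G : ℂ → ℂ} (h : ExtT m τ₀ G) :
    Ext m τ₀ (fun z => G (z * -Complex.I)) := by
  obtain ⟨h1, δ, hδ, h2⟩ := h
  refine ⟨(mer_mul negI_ne _ _).2 ?_, δ, hδ, ?_⟩
  · rw [I_negI]
    exact h1
  · filter_upwards [h2] with τ h3 h4
    rw [I_negI]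
    exact h3 h4

lemma extT_of_ext {m : ℝ → ℝ} {τ₀ : ℝ} {G : ℂ → ℂ} (h : Ext m τ₀ G) :
    ExtT m τ₀ (fun w => G (w * Complex.I)) := by
  obtain ⟨h1, δ, hδ, h2⟩ := h
  exact ⟨(mer_mul Complex.I_ne_zero _ _).2 h1, δ, hδ, h2⟩

/-- the local criterion in the variables `s` and `τ` -/
theorem local_s (hi : i ≤ 2 * d) (hB : IsEulerSystem X d i N B) (τ₀ : ℝ) :
    ((∃ Λ, LocS B i τ₀ Λ) ↔ ∃ G, ExtT (emod B i) τ₀ G) ∧
      ∀ Λ G, LocS B i τ₀ Λ → ExtT (emod B i) τ₀ G →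
        meromorphicOrderAt G (τ₀ : ℂ) = 2 * meromorphicOrderAt Λ (edgePoint i τ₀) := by
  have H := ed_main hi hB
  refine ⟨⟨?_, ?_⟩, ?_⟩
  · rintro ⟨Λ, hΛ⟩
    exact ⟨_, extT_of_ext (H.ext_of_cont (cont_of_locS hΛ))⟩
  · rintro ⟨G, hG⟩
    obtain ⟨Λ, hΛ⟩ := H.cont_of_ext (ext_of_extT hG)
    exact ⟨_, locS_of_cont hΛ⟩
  · intro Λ G hΛ hG
    have h1 := H.order_eq (cont_of_locS hΛ) (ext_of_extT hG)
    have h2 := H.cont_order_ne_top (cont_of_locS hΛ)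
    rw [ord_add, ← edge_eq] at h1 h2
    rw [ord_mul negI_ne, I_negI] at h1
    rw [h1]
    obtain ⟨k, hk⟩ := WithTop.ne_top_iff_exists.1 h2
    rw [← hk]
    have h3 : (2 : WithTop ℤ) = ((2 : ℤ) : WithTop ℤ) := rfl
    rw [h3, ← WithTop.coe_mul, ← WithTop.coe_add, two_mul]

/-- the domain of the continuation in the variable `s` -/
def Dom (i : ℕ) (U : Set ℂ) : Set ℂ :=
  {s : ℂ | (i : ℝ) / 2 + 1 < s.re ∨ ∃ w ∈ U, s = (i : ℂ) / 2 + 1 + Complex.I * w}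

/-- the domain in the variable `z` -/
def WW (U : Set ℂ) : Set ℂ := {z : ℂ | z * -Complex.I ∈ U}

lemma isOpen_WW {U : Set ℂ} (hU : IsOpen U) : IsOpen (WW U) :=
  hU.preimage (continuous_id.mul continuous_const)

lemma sym_WW {U : Set ℂ} (hs : ∀ w ∈ U, (starRingEnd ℂ) w ∈ U) :
    ∀ z ∈ WW U, -(starRingEnd ℂ) z ∈ WW U := by
  intro z hz
  have h1 := hs _ hz
  have h2 : (starRingEnd ℂ) (z * -Complex.I) = -(starRingEnd ℂ) z * -Complex.I := by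
    rw [map_mul, map_neg, Complex.conj_I, neg_neg, neg_mul_neg]
  rw [h2] at h1
  exact h1

lemma mem_Dom_add {U : Set ℂ} {i : ℕ} {z : ℂ} :
    z + ec i ∈ Dom i U ↔ 0 < z.re ∨ z ∈ WW U := by
  unfold Dom WW
  simp only [Set.mem_ofPred_eq]
  rw [re_add_ec]
  refine or_congr ⟨fun h => by linarith, fun h => by linarith⟩ ⟨?_, fun h => ?_⟩
  · rintro ⟨w, hw, h⟩
    have h1 : z = Complex.I * w := by
      rw [ec_eq] at h
      linear_combination h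
    rw [h1, mul_comm Complex.I w, I_negI]
    exact hw
  · refine ⟨_, h, ?_⟩
    rw [ec_eq, mul_comm Complex.I, negI_I]
    ring

lemma mem_Dom {U : Set ℂ} {i : ℕ} {s : ℂ} :
    s ∈ Dom i U ↔ 0 < (s + -ec i).re ∨ s + -ec i ∈ WW U := by
  rw [← mem_Dom_add, neg_add_cancel_right]

lemma WW_line {U : Set ℂ} {τ : ℝ} : (τ : ℂ) * Complex.I ∈ WW U ↔ (τ : ℂ) ∈ U := by
  unfold WW
  rw [Set.mem_ofPred_eq, I_negI]

lemma WW_mul {U : Set ℂ} {w : ℂ} : w * Complex.I ∈ WW U ↔ w ∈ U := by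
  unfold WW
  rw [Set.mem_ofPred_eq, I_negI]

/-- the criterion in the variables `s` and `τ` -/
theorem global_s (hi : i ≤ 2 * d) (hB : IsEulerSystem X d i N B) {U : Set ℂ} (hU : IsOpen U)
    (hs : ∀ w ∈ U, (starRingEnd ℂ) w ∈ U) :
    (∃ Λ : ℂ → ℂ, (∀ s ∈ Dom i U, MeromorphicAt Λ s) ∧
        ∀ s : ℂ, (i : ℝ) / 2 + 1 < s.re → Λ s = LFun B s) ↔
      ∃ G : ℂ → ℂ, (∀ w ∈ U, MeromorphicAt G w) ∧
        ∀ᵐ τ : ℝ, (τ : ℂ) ∈ U → G τ = ((emod B i τ ^ 2 : ℝ) : ℂ) := by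
  have H := ed_main hi hB
  have HG := H.global (isOpen_WW hU) (sym_WW hs)
  constructor
  · rintro ⟨Λ, h1, h2⟩
    obtain ⟨G, h3, h4⟩ := HG.1 ⟨fun z => Λ (z + ec i),
      fun z hz => (mer_add _ _ _).2 (h1 _ (mem_Dom_add.2 hz)),
      fun z hz => by
        rw [ff_eq]
        refine h2 _ ?_
        rw [re_add_ec]
        linarith⟩
    refine ⟨fun w => G (w * Complex.I),
      fun w hw => (mer_mul Complex.I_ne_zero _ _).2 (h3 _ (WW_mul.2 hw)), ?_⟩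
    filter_upwards [h4] with τ h5 h6
    exact h5 (WW_line.2 h6)
  · rintro ⟨G, h1, h2⟩
    obtain ⟨Λ, h3, h4⟩ := HG.2 ⟨fun z => G (z * -Complex.I),
      fun z hz => (mer_mul negI_ne _ _).2 (h1 _ hz), by
        filter_upwards [h2] with τ h h'
        rw [I_negI]
        exact h (WW_line.1 h')⟩
    refine ⟨fun s => Λ (s + -ec i), fun s hsD => (mer_add _ _ _).2 (h3 _ (mem_Dom.1 hsD)),
      fun s hs => ?_⟩
    have h5 : 0 < (s + -ec i).re := by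
      have := re_add_ec i (s + -ec i)
      rw [neg_add_cancel_right] at this
      linarith
    have h6 := h4 _ h5
    rw [ff_eq, neg_add_cancel_right] at h6
    exact h6

/-- the criterion for Q1 in the variables `s` and `τ` -/
theorem q1_s (hi : i ≤ 2 * d) (hB : IsEulerSystem X d i N B)
    (hne : ∀ (v : HeightOneSpectrum (𝓞 K)) (s : ℂ), (i : ℝ) / 2 + 1 < s.re →
      (B v).eval ((Ideal.absNorm v.asIdeal : ℂ) ^ (-s)) ≠ 0) {U : Set ℂ} (hU : IsOpen U)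
    (hs : ∀ w ∈ U, (starRingEnd ℂ) w ∈ U) :
    (∃ Λ : ℂ → ℂ, (∀ s ∈ Dom i U, MeromorphicAt Λ s ∧
          (s ≠ (i : ℂ) / 2 + 1 ∨ Odd i → AnalyticAt ℂ Λ s)) ∧
        ∀ s : ℂ, (i : ℝ) / 2 + 1 < s.re → Λ s = LFun B s) ↔
      ∃ G : ℂ → ℂ, (∀ w ∈ U, MeromorphicAt G w ∧ (w ≠ 0 ∨ Odd i → AnalyticAt ℂ G w)) ∧
        ∀ᵐ τ : ℝ, (τ : ℂ) ∈ U → G τ = ((emod B i τ ^ 2 : ℝ) : ℂ) := by
  have H := ed_main hi hB
  have hD : ∀ z : ℂ, 0 < z.re → DD hB (1 + z) ≠ 0 := by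
    intro z hz
    unfold Pool.Agent.R409.EV.DD
    refine Finset.prod_ne_zero_iff.2 fun v _ => hne v (1 + z + (i : ℂ) / 2) ?_
    have h1 : (1 + z + (i : ℂ) / 2) = z + ec i := by
      rw [ec_eq]
      ring
    rw [h1, re_add_ec]
    linarith
  have hq := H.q1 hD (Odd i) (isOpen_WW hU) (sym_WW hs)
  rw [← ec_eq]
  constructor
  · rintro ⟨Λ, h1, h4⟩
    obtain ⟨G, g1, g4⟩ := hq.1 ⟨fun z => Λ (z + ec i),
      fun z hz => ⟨(mer_add _ _ _).2 (h1 _ (mem_Dom_add.2 hz)).1,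
        fun ho => ana_add _ _ ((h1 _ (mem_Dom_add.2 hz)).2
          (ho.imp (fun h h' => h (by simpa using h')) id))⟩,
      fun z hz => by
        rw [ff_eq]
        refine h4 _ ?_
        rw [re_add_ec]
        linarith⟩
    refine ⟨fun w => G (w * Complex.I), fun w hw =>
      ⟨(mer_mul Complex.I_ne_zero _ _).2 (g1 _ (WW_mul.2 hw)).1,
        fun ho => ana_mul _ ((g1 _ (WW_mul.2 hw)).2
          (ho.imp (fun h => mul_ne_zero h Complex.I_ne_zero) id))⟩, ?_⟩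
    filter_upwards [g4] with τ h5 h6
    exact h5 (WW_line.2 h6)
  · rintro ⟨G, g1, g4⟩
    obtain ⟨Λ, h1, h4⟩ := hq.2 ⟨fun z => G (z * -Complex.I),
      fun z hz => ⟨(mer_mul negI_ne _ _).2 (g1 _ hz).1,
        fun ho => ana_mul _ ((g1 _ hz).2 (ho.imp (fun h => mul_ne_zero h negI_ne) id))⟩, by
        filter_upwards [g4] with τ h h'
        rw [I_negI]
        exact h (WW_line.1 h')⟩
    refine ⟨fun s => Λ (s + -ec i), fun s hsD =>
      ⟨(mer_add _ _ _).2 (h1 _ (mem_Dom.1 hsD)).1,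
        fun ho => ana_add _ _ ((h1 _ (mem_Dom.1 hsD)).2
          (ho.imp (fun h h' => h (add_neg_eq_zero.1 h')) id))⟩, fun s hs => ?_⟩
    have h5 : 0 < (s + -ec i).re := by
      have := re_add_ec i (s + -ec i)
      rw [neg_add_cancel_right] at this
      linarith
    have h6 := h4 _ h5
    rw [ff_eq, neg_add_cancel_right] at h6
    exact h6

end Pool.Agent.E8helper17.MC
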